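import Mathlib

/-! # A Kakeya type compression through digit expansions -/

set_option autoImplicit false

open MeasureTheory Metric Set Filter
open scoped Topology ENNReal

namespace Pool.Agent.NH67.SH

/-- the partial sums -/
noncomputable def dsum (N : ℕ) (g : ℕ → ℝ) (δ : ℕ → ℝ) (K : ℕ) : ℝ :=
  ∑ k ∈ Finset.range K, δ k * g k / (N : ℝ) ^ (k + 1)

theorem geo {N : ℕ} (hN : 0 < N) {k K : ℕ} (h : k ≤ K) :
    ∑ j ∈ Finset.Ico k K, ((N : ℝ) - 1) / (N : ℝ) ^ (j + 1) =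
      1 / (N : ℝ) ^ k - 1 / (N : ℝ) ^ K := by
  have hN' : (N : ℝ) ≠ 0 := by exact_mod_cast hN.ne'
  induction K, h using Nat.le_induction with
  | base => simp
  | succ K hK ih =>
    rw [Finset.sum_Ico_succ_top hK, ih]
    field_simp
    ring

theorem dsum_sub {N : ℕ} (g δ : ℕ → ℝ) {k K : ℕ} (h : k ≤ K) :
    dsum N g δ K - dsum N g δ k = ∑ j ∈ Finset.Ico k K, δ j * g j / (N : ℝ) ^ (j + 1) := by
  unfold dsum
  rw [Finset.sum_Ico_eq_sub _ h]

/-- if `g k` is small, the sum is close to its partial sum up to `k` -/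
theorem dsum_near {N : ℕ} (hN : 0 < N) {g δ : ℕ → ℝ} {k K : ℕ} (h : k < K) {η : ℝ}
    (hδ : ∀ j, |δ j| ≤ (N : ℝ) - 1) (hg : ∀ j < K, |g j| ≤ 4) (hk : |g k| ≤ η) :
    |dsum N g δ K - dsum N g δ k| ≤ η / (N : ℝ) ^ k + 4 / (N : ℝ) ^ (k + 1) := by
  have hN' : (0 : ℝ) < N := by exact_mod_cast hN
  have hN1 : (0 : ℝ) ≤ (N : ℝ) - 1 := by
    have : (1 : ℝ) ≤ N := by exact_mod_cast hN
    linarith
  have hη : 0 ≤ η := (abs_nonneg _).trans hk
  rw [dsum_sub _ _ h.le, Finset.sum_eq_sum_Ico_succ_bot h]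
  refine (abs_add_le _ _).trans (add_le_add ?_ ?_)
  · rw [abs_div, abs_mul, abs_of_pos (pow_pos hN' _)]
    calc |δ k| * |g k| / (N : ℝ) ^ (k + 1) ≤ ((N : ℝ) - 1) * η / (N : ℝ) ^ (k + 1) := by
          gcongr
          exact hδ k
      _ ≤ N * η / (N : ℝ) ^ (k + 1) := by
          gcongr
          linarith
      _ = η / (N : ℝ) ^ k := by
          rw [pow_succ]; field_simp
  · calc |∑ j ∈ Finset.Ico (k + 1) K, δ j * g j / (N : ℝ) ^ (j + 1)|
        ≤ ∑ j ∈ Finset.Ico (k + 1) K, |δ j * g j / (N : ℝ) ^ (j + 1)| :=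
          Finset.abs_sum_le_sum_abs _ _
      _ ≤ ∑ j ∈ Finset.Ico (k + 1) K, 4 * (((N : ℝ) - 1) / (N : ℝ) ^ (j + 1)) := by
          apply Finset.sum_le_sum
          intro j hj
          rw [abs_div, abs_mul, abs_of_pos (pow_pos hN' _)]
          have h1 := hδ j
          have h2 := hg j (Finset.mem_Ico.1 hj).2
          calc |δ j| * |g j| / (N : ℝ) ^ (j + 1) ≤ ((N : ℝ) - 1) * 4 / (N : ℝ) ^ (j + 1) := by
                gcongr
            _ = _ := by ring
      _ = 4 * (1 / (N : ℝ) ^ (k + 1) - 1 / (N : ℝ) ^ K) := by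
          rw [← Finset.mul_sum, geo hN h]
      _ ≤ 4 / (N : ℝ) ^ (k + 1) := by
          have : 0 ≤ 1 / (N : ℝ) ^ K := by positivity
          have e : 4 / (N : ℝ) ^ (k + 1) = 4 * (1 / (N : ℝ) ^ (k + 1)) := by ring
          rw [e]; linarith

/-- digit sequences whose first difference is at `k` give separated sums -/
theorem dsum_sep {N : ℕ} (hN : 0 < N) {g δ δ' : ℕ → ℝ} {k K : ℕ} (h : k < K) {γ : ℝ}
    (hd : ∀ j, |δ j - δ' j| ≤ (N : ℝ) - 1) (hpre : ∀ j < k, δ j = δ' j)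
    (hk : 1 ≤ δ k - δ' k) (hanti : ∀ i j, i ≤ j → j < K → g j ≤ g i)
    (hg : ∀ j < K, γ ≤ g j) (hγ : 0 ≤ γ) :
    γ / (N : ℝ) ^ K ≤ dsum N g δ K - dsum N g δ' K := by
  have hN' : (0 : ℝ) < N := by exact_mod_cast hN
  have hpre' : dsum N g δ k = dsum N g δ' k := by
    unfold dsum
    apply Finset.sum_congr rfl
    intro j hj
    rw [hpre j (Finset.mem_range.1 hj)]
  have e1 : dsum N g δ K - dsum N g δ' K =
      ∑ j ∈ Finset.Ico k K, (δ j - δ' j) * g j / (N : ℝ) ^ (j + 1) := by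
    have h1 := dsum_sub (N := N) g δ h.le
    have h2 := dsum_sub (N := N) g δ' h.le
    rw [hpre'] at h1
    have : dsum N g δ K - dsum N g δ' K =
      (dsum N g δ K - dsum N g δ' k) - (dsum N g δ' K - dsum N g δ' k) := by ring
    rw [this, h1, h2, ← Finset.sum_sub_distrib]
    apply Finset.sum_congr rfl
    intro j _
    ring
  have hgk : 0 ≤ g k := hγ.trans (hg k h)
  rw [e1, Finset.sum_eq_sum_Ico_succ_bot h]
  have h1 : g k / (N : ℝ) ^ (k + 1) ≤ (δ k - δ' k) * g k / (N : ℝ) ^ (k + 1) := by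
    gcongr
    nlinarith
  have h2 : |∑ j ∈ Finset.Ico (k + 1) K, (δ j - δ' j) * g j / (N : ℝ) ^ (j + 1)| ≤
      g k * (1 / (N : ℝ) ^ (k + 1) - 1 / (N : ℝ) ^ K) := by
    calc |∑ j ∈ Finset.Ico (k + 1) K, (δ j - δ' j) * g j / (N : ℝ) ^ (j + 1)|
        ≤ ∑ j ∈ Finset.Ico (k + 1) K, |(δ j - δ' j) * g j / (N : ℝ) ^ (j + 1)| :=
          Finset.abs_sum_le_sum_abs _ _
      _ ≤ ∑ j ∈ Finset.Ico (k + 1) K, g k * (((N : ℝ) - 1) / (N : ℝ) ^ (j + 1)) := by
          apply Finset.sum_le_sum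
          intro j hj
          have hj' := Finset.mem_Ico.1 hj
          rw [abs_div, abs_mul, abs_of_pos (pow_pos hN' _)]
          have h3 : |g j| ≤ g k := by
            rw [abs_of_nonneg (hγ.trans (hg j hj'.2))]
            exact hanti k j (by omega) hj'.2
          calc |δ j - δ' j| * |g j| / (N : ℝ) ^ (j + 1)
              ≤ ((N : ℝ) - 1) * g k / (N : ℝ) ^ (j + 1) := by
                gcongr
                · exact (abs_nonneg _).trans (hd j)
                · exact hd j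
            _ = _ := by ring
      _ = _ := by rw [← Finset.mul_sum, geo hN h]
  have h4 := (abs_le.1 h2).1
  have h5 : γ / (N : ℝ) ^ K ≤ g k / (N : ℝ) ^ K := by
    gcongr
    exact hg k h
  have e3 : g k * (1 / (N : ℝ) ^ (k + 1) - 1 / (N : ℝ) ^ K) =
      g k / (N : ℝ) ^ (k + 1) - g k / (N : ℝ) ^ K := by ring
  rw [e3] at h4
  linarith

/-! ### The concrete family -/

/-- the digits of `d` as a sequence of reals -/
noncomputable def dig {N : ℕ} (d : Fin N → Fin N) (k : ℕ) : ℝ :=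
  if h : k < N then ((d ⟨k, h⟩ : ℕ) : ℝ) else 0

theorem dig_nonneg {N : ℕ} (d : Fin N → Fin N) (k : ℕ) : 0 ≤ dig d k := by
  unfold dig; split_ifs <;> positivity

theorem dig_le {N : ℕ} (hN : 0 < N) (d : Fin N → Fin N) (k : ℕ) : dig d k ≤ (N : ℝ) - 1 := by
  unfold dig
  split_ifs with h
  · have := (d ⟨k, h⟩).2
    have h2 : (((d ⟨k, h⟩ : ℕ) + 1 : ℕ) : ℝ) ≤ N := by exact_mod_cast this
    push_cast at h2
    linarith
  · have : (1 : ℝ) ≤ N := by exact_mod_cast hN
    linarith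

/-- the foci -/
noncomputable def foc (N : ℕ) (k : ℕ) : ℝ := -2 + 4 * k / N

/-- slope -/
noncomputable def sa {N : ℕ} (d : Fin N → Fin N) : ℝ :=
  1 / 64 * dsum N (fun _ => 1) (dig d) N

/-- intercept -/
noncomputable def sb {N : ℕ} (d : Fin N → Fin N) : ℝ :=
  1 / 64 * dsum N (fun k => -foc N k) (dig d) N

/-- the line `z ↦ a z₁ + b z₀` -/
theorem line_eq {N : ℕ} (d : Fin N → Fin N) (z0 z1 : ℝ) :
    sa d * z1 + sb d * z0 = 1 / 64 * dsum N (fun k => z1 - foc N k * z0) (dig d) N := by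
  unfold sa sb dsum
  rw [mul_assoc, mul_assoc, ← mul_add, Finset.sum_mul, Finset.sum_mul, ← Finset.sum_add_distrib]
  congr 1
  apply Finset.sum_congr rfl
  intro k _
  ring

theorem foc_abs_le {N k : ℕ} (h : k < N) : |foc N k| ≤ 2 := by
  have hN : (0 : ℝ) < N := by exact_mod_cast (by omega : 0 < N)
  have h1 : (k : ℝ) / N ≤ 1 := by
    rw [div_le_one hN]; exact_mod_cast h.le
  have h0 : 0 ≤ (k : ℝ) / N := by positivity
  unfold foc
  have e : 4 * (k : ℝ) / N = 4 * (k / N) := by ring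
  rw [e, abs_le]
  constructor <;> linarith

theorem foc_mono (N : ℕ) {i j : ℕ} (h : i ≤ j) : foc N i ≤ foc N j := by
  unfold foc
  have : (i : ℝ) ≤ j := by exact_mod_cast h
  gcongr

theorem abs_dsum_le {N : ℕ} (hN : 0 < N) {g : ℕ → ℝ} {B : ℝ} (d : Fin N → Fin N)
    (hg : ∀ j < N, |g j| ≤ B) (hB : 0 ≤ B) : |dsum N g (dig d) N| ≤ B := by
  have hN' : (0 : ℝ) < N := by exact_mod_cast hN
  unfold dsum
  calc |∑ k ∈ Finset.range N, dig d k * g k / (N : ℝ) ^ (k + 1)|
      ≤ ∑ k ∈ Finset.range N, |dig d k * g k / (N : ℝ) ^ (k + 1)| :=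
        Finset.abs_sum_le_sum_abs _ _
    _ ≤ ∑ k ∈ Finset.range N, B * (((N : ℝ) - 1) / (N : ℝ) ^ (k + 1)) := by
        apply Finset.sum_le_sum
        intro k hk
        rw [abs_div, abs_mul, abs_of_pos (pow_pos hN' _), abs_of_nonneg (dig_nonneg d k)]
        have h1 := dig_le hN d k
        have h2 := hg k (Finset.mem_range.1 hk)
        calc dig d k * |g k| / (N : ℝ) ^ (k + 1) ≤ ((N : ℝ) - 1) * B / (N : ℝ) ^ (k + 1) := by
              gcongr
              exact (dig_nonneg d k).trans h1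
          _ = _ := by ring
    _ = B * (1 / (N : ℝ) ^ 0 - 1 / (N : ℝ) ^ N) := by
        rw [← Finset.mul_sum, Finset.range_eq_Ico, geo hN (Nat.zero_le _)]
    _ ≤ B := by
        have : 0 ≤ 1 / (N : ℝ) ^ N := by positivity
        rw [pow_zero]
        nlinarith

theorem sa_le {N : ℕ} (hN : 0 < N) (d : Fin N → Fin N) : |sa d| ≤ 1 / 64 := by
  unfold sa
  rw [abs_mul, abs_of_pos (by norm_num : (0 : ℝ) < 1 / 64)]
  have := abs_dsum_le hN (g := fun _ => 1) (B := 1) d (by simp) (by norm_num)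
  linarith

theorem sb_le {N : ℕ} (hN : 0 < N) (d : Fin N → Fin N) : |sb d| ≤ 1 / 32 := by
  unfold sb
  rw [abs_mul, abs_of_pos (by norm_num : (0 : ℝ) < 1 / 64)]
  have := abs_dsum_le hN (g := fun k => -foc N k) (B := 2) d
    (fun j hj => by rw [abs_neg]; exact foc_abs_le hj) (by norm_num)
  linarith

/-- **Disjointness**: for `3 z₀ ≤ z₁` the lines are separated. -/
theorem sep {N : ℕ} (hN : 0 < N) {d d' : Fin N → Fin N} (hdd : d ≠ d') {z0 z1 : ℝ}
    (hz0 : 0 ≤ z0) (hz1 : 3 * z0 ≤ z1) :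
    1 / 64 * z0 / (N : ℝ) ^ N ≤ |(sa d * z1 + sb d * z0) - (sa d' * z1 + sb d' * z0)| := by
  classical
  have hex : ∃ k, dig d k ≠ dig d' k := by
    by_contra hcon
    push Not at hcon
    apply hdd
    funext k
    have := hcon k.1
    simp only [dig, k.2, dif_pos, Fin.eta] at this
    exact Fin.ext (by exact_mod_cast this)
  set k := Nat.find hex with hk
  have hkne : dig d k ≠ dig d' k := Nat.find_spec hex
  have hpre : ∀ j < k, dig d j = dig d' j := by
    intro j hj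
    by_contra h
    exact Nat.find_min hex hj h
  have hkN : k < N := by
    by_contra h
    apply hkne
    simp [dig, h]
  have hg : ∀ j < N, z0 ≤ (fun k => z1 - foc N k * z0) j := by
    intro j hj
    have := (abs_le.1 (foc_abs_le hj)).2
    simp only
    nlinarith
  have hanti : ∀ i j, i ≤ j → j < N → (fun k => z1 - foc N k * z0) j ≤
      (fun k => z1 - foc N k * z0) i := by
    intro i j hij _
    have := foc_mono N hij
    simp only
    nlinarith
  have hint : ∀ e e' : Fin N → Fin N, dig e' k < dig e k → 1 ≤ dig e k - dig e' k := by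
    intro e e' h
    simp only [dig, hkN, dif_pos] at h ⊢
    have h2 : ((e' ⟨k, hkN⟩ : ℕ)) + 1 ≤ (e ⟨k, hkN⟩ : ℕ) := by
      have : ((e' ⟨k, hkN⟩ : ℕ)) < (e ⟨k, hkN⟩ : ℕ) := by exact_mod_cast h
      omega
    have h3 : (((e' ⟨k, hkN⟩ : ℕ) : ℝ)) + 1 ≤ ((e ⟨k, hkN⟩ : ℕ) : ℝ) := by exact_mod_cast h2
    linarith
  have hdiff : ∀ (e e' : Fin N → Fin N) (j : ℕ), |dig e j - dig e' j| ≤ (N : ℝ) - 1 := by
    intro e e' j
    rw [abs_le]
    constructor <;> linarith [dig_nonneg e j, dig_nonneg e' j, dig_le hN e j, dig_le hN e' j]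
  rw [line_eq, line_eq, ← mul_sub, abs_mul, abs_of_pos (by norm_num : (0 : ℝ) < 1 / 64),
    mul_div_assoc]
  apply mul_le_mul_of_nonneg_left _ (by norm_num)
  rcases lt_or_gt_of_ne hkne with h | h
  · rw [abs_sub_comm]
    refine le_trans ?_ (le_abs_self _)
    exact dsum_sep hN hkN (hdiff d' d) (fun j hj => (hpre j hj).symm) (hint _ _ h) hanti hg hz0
  · refine le_trans ?_ (le_abs_self _)
    exact dsum_sep hN hkN (hdiff d d') hpre (hint _ _ h) hanti hg hz0

/-- every point of `[-2,2]` is close to one of the foci -/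
theorem exists_foc {N : ℕ} (hN : 0 < N) {z0 z1 : ℝ} (h0 : |z0| ≤ 1) (h1 : |z1| ≤ 2 * |z0|) :
    ∃ k < N, |z1 - foc N k * z0| ≤ 4 / N := by
  have hN' : (0 : ℝ) < N := by exact_mod_cast hN
  by_cases hz : z0 = 0
  · refine ⟨0, hN, ?_⟩
    rw [hz] at h1 ⊢
    simp only [abs_zero, mul_zero, sub_zero] at h1 ⊢
    have : (0 : ℝ) ≤ 4 / N := by positivity
    linarith
  set X := z1 / z0 with hX
  have hzpos : 0 < |z0| := abs_pos.2 hz
  have hXa : |X| ≤ 2 := by
    rw [hX, abs_div, div_le_iff₀ hzpos]; exact h1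
  have hX1 := (abs_le.1 hXa).1
  have hX2 := (abs_le.1 hXa).2
  set y := (X + 2) * N / 4 with hy
  have hy0 : 0 ≤ y := by
    rw [hy]; apply div_nonneg _ (by norm_num); apply mul_nonneg _ hN'.le; linarith
  have hyN : y ≤ N := by
    rw [hy]; rw [div_le_iff₀ (by norm_num)]; nlinarith
  have hXy : X = -2 + 4 * y / N := by
    rw [hy]; field_simp; ring
  obtain ⟨k, hkN, hk1, hk2⟩ : ∃ k < N, (k : ℝ) ≤ y ∧ y ≤ k + 1 := by
    by_cases hc : ⌊y⌋₊ < N
    · exact ⟨⌊y⌋₊, hc, Nat.floor_le hy0, (Nat.lt_floor_add_one y).le⟩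
    · refine ⟨N - 1, by omega, ?_, ?_⟩
      · have h3 : (N : ℝ) ≤ y := by
          have := Nat.floor_le hy0
          have h4 : (N : ℝ) ≤ ⌊y⌋₊ := by exact_mod_cast not_lt.1 hc
          linarith
        have h5 : ((N - 1 : ℕ) : ℝ) ≤ N := by exact_mod_cast Nat.sub_le _ _
        linarith
      · have h5 : ((N - 1 : ℕ) : ℝ) + 1 = N := by
          rw [Nat.cast_sub hN]; simp
        linarith
  refine ⟨k, hkN, ?_⟩
  have e : z1 - foc N k * z0 = (X - foc N k) * z0 := by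
    rw [hX]; field_simp
  rw [e, abs_mul]
  have h3 : |X - foc N k| ≤ 4 / N := by
    rw [hXy, foc]
    have e2 : -2 + 4 * y / N - (-2 + 4 * (k : ℝ) / N) = 4 * (y - k) / N := by ring
    rw [e2, abs_of_nonneg (by apply div_nonneg _ hN'.le; linarith)]
    gcongr
    linarith
  calc |X - foc N k| * |z0| ≤ 4 / N * 1 := by gcongr
    _ = 4 / N := mul_one _

/-- **Compression**: on `|z₁| ≤ 2 |z₀|` the union of the tubes is small. -/
theorem compress {N : ℕ} (hN : 0 < N) {z0 z1 : ℝ} (h0 : |z0| ≤ 1) (h1 : |z1| ≤ 2 * |z0|) :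
    volume {t : ℝ | ∃ d : Fin N → Fin N, |t - (sa d * z1 + sb d * z0)| ≤ 1 / 64 / (N : ℝ) ^ N} ≤
      ENNReal.ofReal (18 / 64 / N) := by
  classical
  have hN' : (0 : ℝ) < N := by exact_mod_cast hN
  obtain ⟨k, hkN, hk⟩ := exists_foc hN h0 h1
  set g : ℕ → ℝ := fun k => z1 - foc N k * z0 with hg
  have hg4 : ∀ j < N, |g j| ≤ 4 := by
    intro j hj
    rw [hg]
    simp only
    have h2 := foc_abs_le hj
    calc |z1 - foc N j * z0| ≤ |z1| + |foc N j * z0| := abs_sub _ _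
      _ ≤ 2 * 1 + 2 * 1 := by
          rw [abs_mul]
          gcongr
          linarith
      _ = 4 := by norm_num
  let P : (Fin k → Fin N) → ℝ := fun π =>
    1 / 64 * ∑ j : Fin k, ((π j : ℕ) : ℝ) * g j / (N : ℝ) ^ ((j : ℕ) + 1)
  set r : ℝ := 9 / 64 / (N : ℝ) ^ (k + 1) with hr
  have hsub : {t : ℝ | ∃ d : Fin N → Fin N,
      |t - (sa d * z1 + sb d * z0)| ≤ 1 / 64 / (N : ℝ) ^ N} ⊆
      ⋃ π : Fin k → Fin N, Icc (P π - r) (P π + r) := by
    rintro t ⟨d, hd⟩
    rw [mem_iUnion]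
    refine ⟨fun j => d ⟨j, by omega⟩, ?_⟩
    have hP : P (fun j => d ⟨j, by omega⟩) = 1 / 64 * dsum N g (dig d) k := by
      simp only [P, dsum]
      congr 1
      rw [Finset.sum_range]
      apply Finset.sum_congr rfl
      intro j _
      have : (j : ℕ) < N := by omega
      simp [dig, this]
    rw [line_eq] at hd
    have hnear := dsum_near hN hkN (fun j => by
      rw [abs_of_nonneg (dig_nonneg d j)]; exact dig_le hN d j) hg4 hk
    have hle : 1 / 64 / (N : ℝ) ^ N ≤ 1 / 64 / (N : ℝ) ^ (k + 1) := by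
      apply div_le_div_of_nonneg_left (by norm_num) (by positivity)
      exact pow_le_pow_right₀ (by exact_mod_cast hN) hkN
    have e4 : (4 : ℝ) / N / (N : ℝ) ^ k = 4 / (N : ℝ) ^ (k + 1) := by
      rw [pow_succ]; field_simp
    rw [e4] at hnear
    rw [hP]
    have h5 := abs_le.1 hd
    have h6 := abs_le.1 hnear
    have e5 : r = 1 / 64 / (N : ℝ) ^ (k + 1) +
        1 / 64 * (4 / (N : ℝ) ^ (k + 1) + 4 / (N : ℝ) ^ (k + 1)) := by
      rw [hr]; ring
    constructor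
    · linarith [h5.1, h6.1]
    · linarith [h5.2, h6.2]
  calc volume {t : ℝ | ∃ d : Fin N → Fin N,
      |t - (sa d * z1 + sb d * z0)| ≤ 1 / 64 / (N : ℝ) ^ N}
      ≤ volume (⋃ π : Fin k → Fin N, Icc (P π - r) (P π + r)) := measure_mono hsub
    _ ≤ ∑ π : Fin k → Fin N, volume (Icc (P π - r) (P π + r)) := measure_iUnion_fintype_le _ _
    _ = ∑ _π : Fin k → Fin N, ENNReal.ofReal (2 * r) := by
        apply Finset.sum_congr rfl
        intro π _
        rw [Real.volume_Icc]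
        congr 1
        ring
    _ = ENNReal.ofReal (18 / 64 / N) := by
        rw [Finset.sum_const, Finset.card_univ, Fintype.card_fun, Fintype.card_fin,
          Fintype.card_fin, nsmul_eq_mul, ← ENNReal.ofReal_natCast,
          ← ENNReal.ofReal_mul (by positivity)]
        congr 1
        rw [hr]
        push_cast
        rw [pow_succ]
        field_simp
        norm_num

end Pool.Agent.NH67.SH
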