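import Pool.Agent.NH67.SH.Eigen

/-! # Powers of isotropic linear forms are eigenfunctions (continued) -/

set_option autoImplicit false

open MeasureTheory Metric Set Filter
open scoped ContDiff Topology

namespace Pool.Agent.NH67.SH

/-- the isotropic linear form `x ↦ ⟨u,x⟩ + i ⟨v,x⟩` -/
noncomputable def ell (u v : Amb 2) (x : Amb 2) : ℂ :=
  ((inner ℝ u x : ℝ) : ℂ) + Complex.I * ((inner ℝ v x : ℝ) : ℂ)

theorem ell_add_smul (u v x y : Amb 2) (t : ℝ) :
    ell u v (x + t • y) = ell u v x + t * ell u v y := by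
  simp only [ell, inner_add_right, inner_smul_right]
  push_cast
  ring

theorem ell_smul (u v x : Amb 2) (t : ℝ) : ell u v (t • x) = t * ell u v x := by
  simp only [ell, inner_smul_right]
  push_cast
  ring

theorem contDiff_ell (u v : Amb 2) : ContDiff ℝ ∞ (ell u v) := by
  have h1 : ContDiff ℝ ∞ (fun x : Amb 2 => inner ℝ u x) := contDiff_const.inner ℝ contDiff_id
  have h2 : ContDiff ℝ ∞ (fun x : Amb 2 => inner ℝ v x) := contDiff_const.inner ℝ contDiff_id
  exact (Complex.ofRealCLM.contDiff.comp h1).add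
    (contDiff_const.mul (Complex.ofRealCLM.contDiff.comp h2))

/-- a pair of orthonormal vectors -/
structure OPair (u v : Amb 2) : Prop where
  nu : ‖u‖ = 1
  nv : ‖v‖ = 1
  uv : inner ℝ u v = 0

theorem sum_ell_sq {u v : Amb 2} (h : OPair u v) (b : OrthonormalBasis (Fin 3) ℝ (Amb 2)) :
    ∑ i, ell u v (b i) ^ 2 = 0 := by
  have h1 : ∑ i, inner ℝ u (b i) * inner ℝ (b i) u = (1 : ℝ) := by
    rw [b.sum_inner_mul_inner, real_inner_self_eq_norm_sq, h.nu]; norm_num
  have h2 : ∑ i, inner ℝ v (b i) * inner ℝ (b i) v = (1 : ℝ) := by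
    rw [b.sum_inner_mul_inner, real_inner_self_eq_norm_sq, h.nv]; norm_num
  have h3 : ∑ i, inner ℝ u (b i) * inner ℝ (b i) v = (0 : ℝ) := by
    rw [b.sum_inner_mul_inner, h.uv]
  have e : ∀ i, ell u v (b i) ^ 2 = ((inner ℝ u (b i) * inner ℝ (b i) u : ℝ) : ℂ) -
      ((inner ℝ v (b i) * inner ℝ (b i) v : ℝ) : ℂ) + 2 * Complex.I *
      ((inner ℝ u (b i) * inner ℝ (b i) v : ℝ) : ℂ) := by
    intro i
    rw [real_inner_comm u (b i), real_inner_comm v (b i), ell]
    push_cast
    ring_nf
    rw [Complex.I_sq]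
    ring
  simp only [e]
  rw [Finset.sum_add_distrib, Finset.sum_sub_distrib, ← Finset.mul_sum, ← Complex.ofReal_sum,
    ← Complex.ofReal_sum, ← Complex.ofReal_sum, h1, h2, h3]
  simp

/-- the homogeneous extension of degree `0` of `ell ^ (2 l)` -/
noncomputable def hpow (u v : Amb 2) (l : ℕ) (y : Amb 2) : ℂ :=
  ell u v y ^ (2 * l) * ((((‖y‖ ^ 2) ^ l : ℝ) : ℂ))⁻¹

theorem contDiffOn_hpow (u v : Amb 2) (l : ℕ) : ContDiffOn ℝ ∞ (hpow u v l) {0}ᶜ := by
  intro y hy
  have hy0 : ‖y‖ ≠ 0 := by simpa using hy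
  apply ContDiffAt.contDiffWithinAt
  apply ContDiffAt.mul
  · exact ((contDiff_ell u v).contDiffAt).pow _
  · apply ContDiffAt.inv
    · apply Complex.ofRealCLM.contDiff.contDiffAt.comp
      exact ((contDiff_norm_sq ℝ).contDiffAt).pow _
    · simp only [ne_eq, Complex.ofReal_eq_zero]
      positivity

theorem laplacian_hpow {u v : Amb 2} (h : OPair u v) (l : ℕ) {x : Amb 2} (hx : ‖x‖ = 1) :
    Laplacian.laplacian (hpow u v l) x =
      -(((2 * l : ℝ) * (2 * l + 1) : ℝ) : ℂ) * ell u v x ^ (2 * l) := by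
  rcases Nat.eq_zero_or_pos l with rfl | hl
  · have : hpow u v 0 = fun _ => (1 : ℂ) := by
      funext y; simp [hpow]
    rw [this, InnerProductSpace.laplacian_const]
    simp
  obtain ⟨b, hb⟩ := Orthonormal.exists_orthonormalBasis_extension_of_card_eq (𝕜 := ℝ)
    (E := Amb 2) (ι := Fin 3) (by simp) (v := fun _ => x) (s := {0}) (by
      constructor
      · intro i; simpa using hx
      · intro i j hij
        exact absurd (Subsingleton.elim i j) hij)
  have hb0 : b 0 = x := hb 0 rfl
  have hx0 : x ≠ 0 := by intro h0; rw [h0] at hx; simp at hx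
  have hC : ContDiffAt ℝ 2 (hpow u v l) x :=
    (((contDiffOn_hpow u v l).contDiffAt
      (isOpen_compl_singleton.mem_nhds hx0))).of_le (WithTop.coe_le_coe.mpr le_top)
  rw [InnerProductSpace.laplacian_eq_iteratedFDeriv_orthonormalBasis _ b]
  simp only [iteratedFDeriv_line hC]
  rw [Fin.sum_univ_three]
  have hort : ∀ i j, i ≠ j → inner ℝ (b i) (b j) = (0 : ℝ) := fun i j hij =>
    b.orthonormal.2 hij
  -- the radial direction
  have h0 : deriv (fun t : ℝ => deriv (fun s : ℝ => hpow u v l (x + s • b 0)) t) 0 = 0 := by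
    have key : ∀ t : ℝ, -1 < t → hpow u v l (x + t • b 0) = ell u v x ^ (2 * l) := by
      intro t ht
      have ht' : (0 : ℝ) < 1 + t := by linarith
      have e1 : x + t • b 0 = (1 + t) • x := by rw [hb0, add_smul, one_smul]
      rw [e1, hpow, ell_smul, norm_smul, hx, Real.norm_of_nonneg ht'.le, mul_one, mul_pow]
      have hne : (((1 + t : ℝ) : ℂ)) ^ (2 * l) ≠ 0 := by
        apply pow_ne_zero
        exact_mod_cast ht'.ne'
      rw [← pow_mul, Complex.ofReal_pow]
      field_simp
    have key2 : ∀ t : ℝ, -1 < t → deriv (fun s : ℝ => hpow u v l (x + s • b 0)) t = 0 := by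
      intro t ht
      have : (fun s : ℝ => hpow u v l (x + s • b 0)) =ᶠ[𝓝 t] fun _ => ell u v x ^ (2 * l) := by
        filter_upwards [lt_mem_nhds ht] with s hs using key s hs
      rw [this.deriv_eq]; simp
    have : (fun t : ℝ => deriv (fun s : ℝ => hpow u v l (x + s • b 0)) t) =ᶠ[𝓝 0]
        fun _ => 0 := by
      filter_upwards [lt_mem_nhds (show (-1 : ℝ) < 0 by norm_num)] with s hs using key2 s hs
    rw [this.deriv_eq]; simp
  have hi : ∀ i, i ≠ 0 →
      deriv (fun t : ℝ => deriv (fun s : ℝ => hpow u v l (x + s • b i)) t) 0 =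
      (2 * l) * ((2 * l : ℕ) - 1 : ℕ) * ell u v x ^ (2 * l - 2) * ell u v (b i) ^ 2 -
        2 * l * ell u v x ^ (2 * l) := by
    intro i hi0
    rw [← deriv2_aux]
    have e : ∀ s : ℝ, hpow u v l (x + s • b i) = (ell u v x + s * ell u v (b i)) ^ (2 * l) *
        ((((1 + s ^ 2) ^ l : ℝ) : ℂ))⁻¹ := by
      intro s
      have hn : ‖x + s • b i‖ ^ 2 = 1 + s ^ 2 := by
        rw [← real_inner_self_eq_norm_sq, inner_add_left, inner_add_right, inner_add_right,
          inner_smul_left, inner_smul_right, inner_smul_left, inner_smul_right,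
          real_inner_self_eq_norm_sq, hx]
        have h1 : inner ℝ x (b i) = (0 : ℝ) := by rw [← hb0]; exact hort 0 i (Ne.symm hi0)
        have h2 : inner ℝ (b i) x = (0 : ℝ) := by rw [real_inner_comm]; exact h1
        have h3 : inner ℝ (b i) (b i) = (1 : ℝ) := by
          rw [real_inner_self_eq_norm_sq, b.orthonormal.1 i]; norm_num
        rw [h1, h2, h3]
        simp
        ring
      rw [hpow, hn, ell_add_smul]
    simp only [e]
  rw [h0, hi 1 (by decide), hi 2 (by decide)]
  have hs := sum_ell_sq h b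
  rw [Fin.sum_univ_three, hb0] at hs
  have hs' : ell u v (b 2) ^ 2 = -(ell u v x ^ 2) - ell u v (b 1) ^ 2 := by
    linear_combination hs
  rw [hs']
  have hpw : ell u v x ^ (2 * l) = ell u v x ^ (2 * l - 2) * ell u v x ^ 2 := by
    rw [← pow_add]; congr 1; omega
  rw [hpw]
  have hc : (((2 * l : ℕ) - 1 : ℕ) : ℂ) = 2 * (l : ℂ) - 1 := by
    rw [Nat.cast_sub (by omega)]; push_cast; ring
  rw [hc]
  push_cast
  ring

theorem ext_ell (u v : Amb 2) (l : ℕ) {y : Amb 2} (hy : y ≠ 0) :
    ell u v (‖y‖⁻¹ • y) ^ (2 * l) = hpow u v l y := by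
  have hn : (‖y‖ : ℂ) ≠ 0 := by exact_mod_cast (norm_ne_zero_iff.2 hy)
  rw [ell_smul, hpow, mul_pow, ← pow_mul, Complex.ofReal_pow, Complex.ofReal_inv, inv_pow]
  ring

/-- finite linear combinations of the functions `ell ^ (2 l)` are eigenfunctions -/
theorem isEigenfunction_sum {ι : Type*} (D : Finset ι) (u v : ι → Amb 2)
    (h : ∀ d, OPair (u d) (v d)) (l : ℕ) (c : ι → ℂ) :
    IsEigenfunction (m := 2) (Real.sqrt ((2 * l : ℝ) * (2 * l + 1)))
      (fun x => ∑ d ∈ D, c d * ell (u d) (v d) (x : Amb 2) ^ (2 * l)) := by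
  set F : Sph 2 → ℂ := fun x => ∑ d ∈ D, c d * ell (u d) (v d) (x : Amb 2) ^ (2 * l) with hF
  have hext : ∀ y : Amb 2, y ≠ 0 → ext F y = ∑ d ∈ D, c d * hpow (u d) (v d) l y := by
    intro y hy
    rw [ext_of_ne F hy, hF]
    apply Finset.sum_congr rfl
    intro d _
    rw [← ext_ell _ _ _ hy]
  constructor
  · apply ContDiffOn.congr (f := fun y => ∑ d ∈ D, c d * hpow (u d) (v d) l y)
    · apply ContDiffOn.sum
      intro d _
      exact contDiffOn_const.mul (contDiffOn_hpow _ _ _)
    · intro y hy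
      exact hext y hy
  · intro x
    have hx : ‖(x : Amb 2)‖ = 1 := by simp
    have hx0 : (x : Amb 2) ≠ 0 := by intro h0; rw [h0] at hx; simp at hx
    have hev : ext F =ᶠ[𝓝 (x : Amb 2)] fun y => ∑ d ∈ D, c d * hpow (u d) (v d) l y := by
      filter_upwards [isOpen_compl_singleton.mem_nhds hx0] with y hy using hext y hy
    have hlap := InnerProductSpace.laplacian_congr_nhds hev
    rw [hlap.self_of_nhds]
    have hC : ∀ d, ContDiffAt ℝ 2 (hpow (u d) (v d) l) (x : Amb 2) := fun d =>
      (((contDiffOn_hpow (u d) (v d) l).contDiffAt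
        (isOpen_compl_singleton.mem_nhds hx0))).of_le (WithTop.coe_le_coe.mpr le_top)
    have hsum : ∀ D' : Finset ι,
        Laplacian.laplacian (fun y => ∑ d ∈ D', c d * hpow (u d) (v d) l y) (x : Amb 2) =
        ∑ d ∈ D', c d * (-(((2 * l : ℝ) * (2 * l + 1) : ℝ) : ℂ) *
          ell (u d) (v d) (x : Amb 2) ^ (2 * l)) := by
      classical
      intro D'
      induction D' using Finset.induction_on with
      | empty => simp [InnerProductSpace.laplacian_const]
      | insert d D' hd ih =>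
        have hCd : ContDiffAt ℝ 2 (fun y => c d * hpow (u d) (v d) l y) (x : Amb 2) :=
          contDiffAt_const.mul (hC d)
        have hCD : ContDiffAt ℝ 2 (fun y => ∑ d ∈ D', c d * hpow (u d) (v d) l y)
            (x : Amb 2) := by
          apply ContDiffAt.sum
          intro d' _
          exact contDiffAt_const.mul (hC d')
        have e1 : (fun y => ∑ d ∈ insert d D', c d * hpow (u d) (v d) l y) =
            (fun y => c d * hpow (u d) (v d) l y) +
              fun y => ∑ d ∈ D', c d * hpow (u d) (v d) l y := by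
          funext y
          simp [Finset.sum_insert hd]
        rw [e1, hCd.laplacian_add hCD, ih, Finset.sum_insert hd]
        congr 1
        have e2 : (fun y => c d * hpow (u d) (v d) l y) =
            (ContinuousLinearMap.mul ℝ ℂ (c d)) ∘ hpow (u d) (v d) l := by
          funext y; simp
        rw [e2, (hC d).laplacian_CLM_comp_left]
        simp only [Function.comp, ContinuousLinearMap.mul_apply']
        rw [laplacian_hpow (h d) l hx]
    rw [hsum D]
    have hsq : ((Real.sqrt ((2 * l : ℝ) * (2 * l + 1)) : ℝ) : ℂ) ^ 2 =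
        (((2 * l : ℝ) * (2 * l + 1) : ℝ) : ℂ) := by
      rw [← Complex.ofReal_pow, Real.sq_sqrt (by positivity)]
    rw [hsq, hF, Finset.mul_sum, ← Finset.sum_neg_distrib]
    apply Finset.sum_congr rfl
    intro d _
    ring

end Pool.Agent.NH67.SH
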