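import Pool.Agent.NH67.SH.Cone
import Pool.Agent.NH67.SH.Digits
import Pool.Agent.NH67.SH.Eigen2

/-! # Gaussian beams -/

set_option autoImplicit false

open MeasureTheory Metric Set Filter
open scoped Topology ENNReal

namespace Pool.Agent.NH67.SH

/-- the linear form `y₂ - a y₁ - b y₀` -/
noncomputable def lin (a b : ℝ) (y : Amb 2) : ℝ := y 2 - a * y 1 - b * y 0

theorem lin_smul (a b t : ℝ) (y : Amb 2) : lin a b (t • y) = t * lin a b y := by
  simp [lin]; ring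

theorem continuous_lin (a b : ℝ) : Continuous (lin a b) := by
  have c : ∀ i : Fin 3, Continuous fun y : Amb 2 => y i := fun i =>
    (EuclideanSpace.proj i : Amb 2 →L[ℝ] ℝ).continuous
  unfold lin
  exact ((c 2).sub (continuous_const.mul (c 1))).sub (continuous_const.mul (c 0))

/-- the normal vector -/
noncomputable def nrm (a b : ℝ) : Amb 2 := !₂[-b, -a, 1]

theorem inner_nrm (a b : ℝ) (y : Amb 2) : inner ℝ (nrm a b) y = lin a b y := by
  rw [inner3]; simp [nrm, lin]; ring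

theorem norm_nrm (a b : ℝ) : ‖nrm a b‖ ^ 2 = 1 + a ^ 2 + b ^ 2 := by
  rw [norm3]; simp [nrm]; ring

theorem norm_ell_sq (u v x : Amb 2) :
    ‖ell u v x‖ ^ 2 = inner ℝ u x ^ 2 + inner ℝ v x ^ 2 := by
  rw [← Complex.normSq_eq_norm_sq, ell, mul_comm, Complex.normSq_add_mul_I]

/-- there are vectors `u, v` completing the unit normal to an orthonormal basis -/
theorem exists_uv (a b : ℝ) : ∃ u v : Amb 2, OPair u v ∧ ∀ x : Amb 2,
    ‖ell u v x‖ ^ 2 = ‖x‖ ^ 2 - lin a b x ^ 2 / (1 + a ^ 2 + b ^ 2) := by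
  set S : ℝ := 1 + a ^ 2 + b ^ 2 with hS
  have hS0 : 0 < S := by positivity
  set c : Amb 2 := (Real.sqrt S)⁻¹ • nrm a b with hc
  have hsq : Real.sqrt S ^ 2 = S := Real.sq_sqrt hS0.le
  have hsp : 0 < Real.sqrt S := Real.sqrt_pos.2 hS0
  have hcn : ‖c‖ = 1 := by
    have h1 : ‖c‖ ^ 2 = 1 := by
      rw [hc, norm_smul, mul_pow, norm_nrm, Real.norm_of_nonneg (inv_nonneg.2 hsp.le), inv_pow,
        hsq, ← hS]
      field_simp
    nlinarith [norm_nonneg c]
  obtain ⟨e, he⟩ := Orthonormal.exists_orthonormalBasis_extension_of_card_eq (𝕜 := ℝ)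
    (E := Amb 2) (ι := Fin 3) (by simp) (v := fun _ => c) (s := {0}) (by
      constructor
      · intro i; simpa using hcn
      · intro i j hij
        exact absurd (Subsingleton.elim i j) hij)
  have he0 : e 0 = c := he 0 rfl
  refine ⟨e 1, e 2, ⟨e.orthonormal.1 1, e.orthonormal.1 2, e.orthonormal.2 (by decide)⟩, ?_⟩
  intro x
  have hsum := e.sum_sq_norm_inner_right x
  rw [Fin.sum_univ_three, he0] at hsum
  simp only [Real.norm_eq_abs, sq_abs] at hsum
  have hcx : inner ℝ c x ^ 2 = lin a b x ^ 2 / S := by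
    rw [hc, inner_smul_left, inner_nrm]
    simp only [conj_trivial]
    rw [mul_pow, inv_pow, hsq]
    field_simp
  rw [norm_ell_sq, ← hcx]
  linarith

/-- the first vector of the pair -/
noncomputable def uu (a b : ℝ) : Amb 2 := (exists_uv a b).choose
/-- the second vector of the pair -/
noncomputable def vv (a b : ℝ) : Amb 2 := (exists_uv a b).choose_spec.choose

theorem opair_uv (a b : ℝ) : OPair (uu a b) (vv a b) :=
  (exists_uv a b).choose_spec.choose_spec.1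

theorem norm_ell_uv (a b : ℝ) (x : Amb 2) :
    ‖ell (uu a b) (vv a b) x‖ ^ 2 = ‖x‖ ^ 2 - lin a b x ^ 2 / (1 + a ^ 2 + b ^ 2) :=
  (exists_uv a b).choose_spec.choose_spec.2 x

/-- the Gaussian beam of degree `2 s²` -/
noncomputable def beam (a b : ℝ) (s : ℕ) (x : Sph 2) : ℂ :=
  ell (uu a b) (vv a b) (x : Amb 2) ^ (2 * s ^ 2)

theorem continuous_beam (a b : ℝ) (s : ℕ) : Continuous (beam a b s) := by
  unfold beam
  exact ((contDiff_ell _ _).continuous.comp continuous_subtype_val).pow _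

theorem norm_beam (a b : ℝ) (s : ℕ) (x : Sph 2) :
    ‖beam a b s x‖ = (1 - lin a b (x : Amb 2) ^ 2 / (1 + a ^ 2 + b ^ 2)) ^ (s ^ 2) := by
  unfold beam
  rw [norm_pow, pow_mul, norm_ell_uv]
  simp

theorem lin_sq_le (a b : ℝ) (x : Sph 2) :
    lin a b (x : Amb 2) ^ 2 / (1 + a ^ 2 + b ^ 2) ≤ 1 := by
  have h := norm_ell_uv a b (x : Amb 2)
  have h2 : 0 ≤ ‖ell (uu a b) (vv a b) (x : Amb 2)‖ ^ 2 := by positivity
  rw [h] at h2
  simp at h2
  linarith

theorem norm_beam_le {a b : ℝ} (ha : |a| ≤ 1 / 64) (hb : |b| ≤ 1 / 32) (s : ℕ) (x : Sph 2) :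
    ‖beam a b s x‖ ≤ Real.exp (-((s : ℝ) ^ 2 * lin a b (x : Amb 2) ^ 2 / 2)) := by
  rw [norm_beam]
  have ha2 : a ^ 2 ≤ 1 / 4 := by rw [← sq_abs]; nlinarith [abs_nonneg a]
  have hb2 : b ^ 2 ≤ 1 / 4 := by rw [← sq_abs]; nlinarith [abs_nonneg b]
  set τ := lin a b (x : Amb 2) ^ 2 / (1 + a ^ 2 + b ^ 2) with hτ
  have h1 : 0 ≤ 1 - τ := by linarith [lin_sq_le a b x]
  have h2 : lin a b (x : Amb 2) ^ 2 / 2 ≤ τ := by
    rw [hτ]
    apply div_le_div_of_nonneg_left (sq_nonneg _) (by positivity)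
    linarith
  calc (1 - τ) ^ (s ^ 2) ≤ (Real.exp (-τ)) ^ (s ^ 2) := by
        apply pow_le_pow_left₀ h1
        have := Real.add_one_le_exp (-τ)
        linarith
    _ = Real.exp (-((s : ℝ) ^ 2 * τ)) := by
        rw [← Real.exp_nat_mul]; congr 1; push_cast; ring
    _ ≤ _ := by
        apply Real.exp_le_exp.2
        have : (s : ℝ) ^ 2 * (lin a b (x : Amb 2) ^ 2 / 2) ≤ (s : ℝ) ^ 2 * τ := by gcongr
        have e : (s : ℝ) ^ 2 * lin a b (x : Amb 2) ^ 2 / 2 =
          (s : ℝ) ^ 2 * (lin a b (x : Amb 2) ^ 2 / 2) := by ring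
        rw [e]; linarith

theorem norm_beam_ge (a b : ℝ) (s : ℕ) (x : Sph 2) :
    1 - (s : ℝ) ^ 2 * lin a b (x : Amb 2) ^ 2 ≤ ‖beam a b s x‖ := by
  rw [norm_beam]
  set τ := lin a b (x : Amb 2) ^ 2 / (1 + a ^ 2 + b ^ 2) with hτ
  have h2 : τ ≤ lin a b (x : Amb 2) ^ 2 := by
    rw [hτ]
    apply div_le_self (sq_nonneg _)
    nlinarith [sq_nonneg a, sq_nonneg b]
  have h3 := lin_sq_le a b x
  have h1 := one_add_mul_le_pow (a := -τ) (by linarith) (s ^ 2)
  have e : (1 : ℝ) + -τ = 1 - τ := by ring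
  rw [e] at h1
  push_cast at h1
  nlinarith [sq_nonneg (s : ℝ)]

theorem lin_proj (a b : ℝ) {y : Amb 2} (hy : y ∈ pball) :
    lin a b y ^ 2 ≤ lin a b ((proj y : Sph 2) : Amb 2) ^ 2 := by
  have hy0 : y ≠ 0 := by simpa [pball] using hy.2
  have hy1 : ‖y‖ < 1 := by simpa [pball] using hy.1
  have hn : 0 < ‖y‖ := norm_pos_iff.2 hy0
  rw [proj_of_ne hy0, lin_smul, mul_pow]
  have h1 : 1 ≤ (‖y‖⁻¹) ^ 2 := one_le_pow₀ ((one_le_inv₀ hn).2 hy1.le)
  nlinarith [sq_nonneg (lin a b y)]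

theorem lin_pt (a b : ℝ) (z : Fin 2 → ℝ) (t : ℝ) :
    lin a b (pt z t) = t - (a * z 1 + b * z 0) := by
  simp [lin]; ring

/-- the `L²` norm of a beam -/
theorem beam_L2 {a b : ℝ} (ha : |a| ≤ 1 / 64) (hb : |b| ≤ 1 / 32) {s : ℕ} (hs : 0 < s) :
    ∫ x, ‖beam a b s x‖ ^ 2 ∂(vol 2) ≤ 24 / s := by
  have hs' : (0 : ℝ) < s := by exact_mod_cast hs
  have hcont : Continuous fun x => ‖beam a b s x‖ ^ 2 := (continuous_beam a b s).norm.pow 2
  have hfm : Measurable fun x => ENNReal.ofReal (‖beam a b s x‖ ^ 2) :=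
    hcont.measurable.ennreal_ofReal
  set h : Amb 2 → ℝ≥0∞ := fun y => ENNReal.ofReal (Real.exp (-((s : ℝ) ^ 2 * lin a b y ^ 2)))
    with hh
  have hhm : Measurable h := by
    apply Measurable.ennreal_ofReal
    have : Continuous fun y => Real.exp (-((s : ℝ) ^ 2 * lin a b y ^ 2)) := by
      have := continuous_lin a b
      fun_prop
    exact this.measurable
  have hle : ∀ y ∈ pball, ENNReal.ofReal (‖beam a b s (proj y)‖ ^ 2) ≤ h y := by
    intro y hy
    apply ENNReal.ofReal_le_ofReal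
    have h1 := norm_beam_le ha hb s (proj y)
    calc ‖beam a b s (proj y)‖ ^ 2
        ≤ Real.exp (-((s : ℝ) ^ 2 * lin a b ((proj y : Sph 2) : Amb 2) ^ 2 / 2)) ^ 2 := by
          gcongr
      _ = Real.exp (-((s : ℝ) ^ 2 * lin a b ((proj y : Sph 2) : Amb 2) ^ 2)) := by
          rw [← Real.exp_nat_mul]; congr 1; push_cast; ring
      _ ≤ _ := by
          apply Real.exp_le_exp.2
          have := lin_proj a b hy
          nlinarith [sq_nonneg (s : ℝ)]
  have hslice : ∀ z : Fin 2 → ℝ, (∀ i, |z i| ≤ 1) → ∫⁻ t, h (pt z t) ≤ ENNReal.ofReal (2 / s) := by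
    intro z _
    have e1 : ∀ t, h (pt z t) =
        (fun t => ENNReal.ofReal (Real.exp (-((s : ℝ) ^ 2) * t ^ 2))) (t - (a * z 1 + b * z 0)) := by
      intro t
      simp only [hh, lin_pt]
      congr 2
      ring
    simp only [e1]
    rw [lintegral_sub_right_eq_self
      (fun t => ENNReal.ofReal (Real.exp (-((s : ℝ) ^ 2) * t ^ 2)))]
    rw [← ofReal_integral_eq_lintegral_ofReal
      (integrable_exp_neg_mul_sq (by positivity)) (ae_of_all _ fun t => (Real.exp_pos _).le),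
      integral_gaussian]
    apply ENNReal.ofReal_le_ofReal
    have h4 : Real.pi / (s : ℝ) ^ 2 ≤ (2 / s) ^ 2 := by
      rw [div_pow]
      gcongr
      linarith [Real.pi_le_four]
    calc Real.sqrt (Real.pi / (s : ℝ) ^ 2) ≤ Real.sqrt ((2 / s) ^ 2) := Real.sqrt_le_sqrt h4
      _ = 2 / s := Real.sqrt_sq (by positivity)
  have hmain := lintegral_vol_le hfm hhm hle hslice
  rw [integral_eq_lintegral_of_nonneg_ae (ae_of_all _ fun x => by positivity)
    hcont.aestronglyMeasurable]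
  have h12 : (12 : ℝ≥0∞) * ENNReal.ofReal (2 / s) = ENNReal.ofReal (24 / s) := by
    have : (12 : ℝ≥0∞) = ENNReal.ofReal 12 := by norm_num
    rw [this, ← ENNReal.ofReal_mul (by norm_num)]
    congr 1; ring
  rw [h12] at hmain
  calc (∫⁻ x, ENNReal.ofReal (‖beam a b s x‖ ^ 2) ∂(vol 2)).toReal
      ≤ (ENNReal.ofReal (24 / s)).toReal := ENNReal.toReal_mono ENNReal.ofReal_ne_top hmain
    _ = 24 / s := ENNReal.toReal_ofReal (by positivity)

end Pool.Agent.NH67.SH
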