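import Pool.Agent.NH67.SH.Control

/-! # Integrals over the sphere as integrals over the ball, and slices -/

set_option autoImplicit false

open MeasureTheory Metric Set Filter
open scoped ContDiff Topology Pointwise ENNReal

namespace Pool.Agent.NH67.SH

/-- a base point of the sphere -/
noncomputable def base : Sph 2 := ⟨EuclideanSpace.single 0 1, by simp⟩

open scoped Classical in
/-- the radial projection to the sphere -/
noncomputable def proj (y : Amb 2) : Sph 2 :=
  if h : y = 0 then base else ⟨‖y‖⁻¹ • y, by simp [norm_smul, h]⟩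

theorem proj_of_ne {y : Amb 2} (h : y ≠ 0) : ((proj y : Sph 2) : Amb 2) = ‖y‖⁻¹ • y := by
  simp [proj, h]

theorem measurable_proj : Measurable proj := by
  classical
  have h : Measurable fun y : Amb 2 => ((proj y : Sph 2) : Amb 2) := by
    have : (fun y : Amb 2 => ((proj y : Sph 2) : Amb 2)) =
        fun y => if y = 0 then ((base : Sph 2) : Amb 2) else ‖y‖⁻¹ • y := by
      funext y
      by_cases h : y = 0
      · simp [proj, h]
      · simp [proj_of_ne h, h]
    rw [this]
    exact Measurable.ite (measurableSet_singleton 0) measurable_const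
      (measurable_norm.inv.smul measurable_id)
  exact h.subtype_mk

/-- the punctured unit ball -/
def pball : Set (Amb 2) := ball 0 1 \ {0}

theorem measurableSet_pball : MeasurableSet pball :=
  measurableSet_ball.diff (measurableSet_singleton _)

theorem vol_eq : vol 2 = (3 : ℝ≥0∞) • (volume.restrict pball).map proj := by
  ext S hS
  rw [vol, Measure.toSphere_apply' _ hS, Measure.smul_apply, Measure.map_apply measurable_proj hS,
    Measure.restrict_apply (measurable_proj hS)]
  have h3 : (Module.finrank ℝ (Amb 2) : ℝ≥0∞) = 3 := by simp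
  rw [h3, smul_eq_mul]
  congr 2
  ext y
  simp only [Set.mem_smul, mem_image, mem_inter_iff, mem_preimage, pball, Set.mem_sdiff, mem_ball,
    dist_zero_right, mem_singleton_iff]
  constructor
  · rintro ⟨r, hr, _, ⟨x, hx, rfl⟩, rfl⟩
    have hx1 : ‖(x : Amb 2)‖ = 1 := by simp
    have hx0 : (x : Amb 2) ≠ 0 := by intro h0; rw [h0] at hx1; simp at hx1
    have hne : r • (x : Amb 2) ≠ 0 := smul_ne_zero hr.1.ne' hx0
    have hn : ‖r • (x : Amb 2)‖ = r := by
      rw [norm_smul, hx1, mul_one, Real.norm_of_nonneg hr.1.le]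
    refine ⟨?_, by rw [hn]; exact hr.2, hne⟩
    have : proj (r • (x : Amb 2)) = x := by
      ext1
      rw [proj_of_ne hne, hn, smul_smul, inv_mul_cancel₀ hr.1.ne', one_smul]
    rw [this]; exact hx
  · rintro ⟨h1, h2, h3⟩
    have hn : 0 < ‖y‖ := norm_pos_iff.2 h3
    refine ⟨‖y‖, ⟨hn, h2⟩, _, ⟨_, h1, rfl⟩, ?_⟩
    rw [proj_of_ne h3, smul_smul, mul_inv_cancel₀ hn.ne', one_smul]

theorem lintegral_vol {f : Sph 2 → ℝ≥0∞} (hf : Measurable f) :
    ∫⁻ x, f x ∂(vol 2) = 3 * ∫⁻ y in pball, f (proj y) := by
  rw [vol_eq, lintegral_smul_measure, lintegral_map hf measurable_proj, smul_eq_mul]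

/-- the point with coordinates `z 0, z 1, t` -/
noncomputable def pt (z : Fin 2 → ℝ) (t : ℝ) : Amb 2 := !₂[z 0, z 1, t]

@[simp] theorem pt_zero (z : Fin 2 → ℝ) (t : ℝ) : pt z t 0 = z 0 := rfl
@[simp] theorem pt_one (z : Fin 2 → ℝ) (t : ℝ) : pt z t 1 = z 1 := rfl
@[simp] theorem pt_two (z : Fin 2 → ℝ) (t : ℝ) : pt z t 2 = t := rfl

theorem lintegral_slices {f : Amb 2 → ℝ≥0∞} (hf : Measurable f) :
    ∫⁻ y, f y = ∫⁻ z : Fin 2 → ℝ, ∫⁻ t : ℝ, f (pt z t) := by
  have h1 : MeasurePreserving (@WithLp.toLp 2 (Fin 3 → ℝ)) := PiLp.volume_preserving_toLp (Fin 3)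
  have h2 := (volume_preserving_piFinSuccAbove (fun _ : Fin 3 => ℝ) 2).symm
  have h3 := h1.comp h2
  rw [← h3.lintegral_comp hf]
  have h4 : (volume : Measure (ℝ × (Fin 2 → ℝ))) = (volume : Measure ℝ).prod volume := rfl
  change ∫⁻ a : ℝ × (Fin 2 → ℝ), _ = _
  rw [h4, lintegral_prod_symm]
  · apply lintegral_congr
    intro z
    apply lintegral_congr
    intro t
    congr 1
    ext i
    fin_cases i
    · rfl
    · rfl
    · rfl
  · exact (hf.comp h3.measurable).aemeasurable

theorem measurable_pt (z : Fin 2 → ℝ) : Measurable (pt z) := by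
  have h : Continuous (pt z) := by
    unfold pt
    fun_prop
  exact h.measurable

theorem abs_coord_le {y : Amb 2} (hy : y ∈ pball) (i : Fin 3) : |y i| ≤ 1 := by
  have h1 : ‖y‖ < 1 := by simpa [pball] using hy.1
  have h2 := PiLp.norm_apply_le y i
  rw [Real.norm_eq_abs] at h2
  linarith

theorem lintegral_vol_le {f : Sph 2 → ℝ≥0∞} (hf : Measurable f) {h : Amb 2 → ℝ≥0∞}
    (hh : Measurable h) (hfh : ∀ y ∈ pball, f (proj y) ≤ h y) {B : ℝ≥0∞}
    (hB : ∀ z : Fin 2 → ℝ, (∀ i, |z i| ≤ 1) → ∫⁻ t, h (pt z t) ≤ B) :
    ∫⁻ x, f x ∂(vol 2) ≤ 12 * B := by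
  classical
  rw [lintegral_vol hf]
  set box : Set (Fin 2 → ℝ) := Icc (fun _ => -1) (fun _ => 1) with hbox
  have hboxm : MeasurableSet box := measurableSet_Icc
  have hmem : ∀ z : Fin 2 → ℝ, z ∈ box ↔ ∀ i, |z i| ≤ 1 := by
    intro z
    rw [hbox, mem_Icc, Pi.le_def, Pi.le_def]
    constructor
    · intro h i; exact abs_le.2 ⟨h.1 i, h.2 i⟩
    · intro h; exact ⟨fun i => (abs_le.1 (h i)).1, fun i => (abs_le.1 (h i)).2⟩
  let S : Set (Amb 2) := {y | |y 0| ≤ 1 ∧ |y 1| ≤ 1}
  have hSm : MeasurableSet S := by
    have c : ∀ i : Fin 3, Continuous fun y : Amb 2 => y i := fun i =>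
      (EuclideanSpace.proj i : Amb 2 →L[ℝ] ℝ).continuous
    exact ((isClosed_le (c 0).abs continuous_const).inter
      (isClosed_le (c 1).abs continuous_const)).measurableSet
  have h1 : ∫⁻ y in pball, f (proj y) ≤ ∫⁻ y, S.indicator h y := by
    rw [← lintegral_indicator measurableSet_pball]
    apply lintegral_mono
    intro y
    by_cases hy : y ∈ pball
    · have hyS : y ∈ S := ⟨abs_coord_le hy 0, abs_coord_le hy 1⟩
      simp only [indicator_of_mem hy, indicator_of_mem hyS]
      exact hfh y hy
    · simp [indicator_of_notMem hy]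
  have h2 : ∫⁻ y, S.indicator h y ≤ 4 * B := by
    rw [lintegral_slices (hh.indicator hSm)]
    calc ∫⁻ z : Fin 2 → ℝ, ∫⁻ t : ℝ, S.indicator h (pt z t)
        ≤ ∫⁻ z : Fin 2 → ℝ, box.indicator (fun _ => B) z := by
          apply lintegral_mono
          intro z
          by_cases hz : z ∈ box
          · simp only [indicator_of_mem hz]
            refine le_trans ?_ (hB z ((hmem z).1 hz))
            apply lintegral_mono
            intro t
            exact indicator_le_self _ _ _
          · have : ∀ t, S.indicator h (pt z t) = 0 := by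
              intro t
              apply indicator_of_notMem
              rintro ⟨ha, hb⟩
              apply hz
              rw [hmem]
              intro i
              fin_cases i
              · exact ha
              · exact hb
            simp [this]
      _ = B * volume box := by
          rw [lintegral_indicator hboxm, setLIntegral_const]
      _ = 4 * B := by
          rw [hbox, Real.volume_Icc_pi]
          simp only [Fin.prod_univ_two]
          have : ENNReal.ofReal (1 - -1) = 2 := by norm_num
          rw [this, mul_comm]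
          norm_num
  calc 3 * ∫⁻ y in pball, f (proj y) ≤ 3 * (4 * B) := by gcongr; exact h1.trans h2
    _ = 12 * B := by rw [← mul_assoc]; norm_num

theorem vol_ge {S : Set (Sph 2)} (hS : MeasurableSet S) {R : Set (Fin 2 → ℝ)}
    (hR : MeasurableSet R) {b : ℝ≥0∞}
    (hb : ∀ z ∈ R, b ≤ volume {t : ℝ | pt z t ∈ pball ∧ proj (pt z t) ∈ S}) :
    3 * (volume R * b) ≤ vol 2 S := by
  classical
  have h0 : vol 2 S = ∫⁻ x, S.indicator (fun _ => 1) x ∂(vol 2) := by
    rw [lintegral_indicator hS]; simp
  have hm : Measurable (S.indicator (fun _ => (1 : ℝ≥0∞))) := measurable_const.indicator hS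
  rw [h0, lintegral_vol hm]
  gcongr
  have hm2 : Measurable (pball.indicator
      (fun y => S.indicator (fun _ => (1 : ℝ≥0∞)) (proj y))) :=
    (hm.comp measurable_proj).indicator measurableSet_pball
  rw [← lintegral_indicator measurableSet_pball, lintegral_slices hm2]
  calc volume R * b = ∫⁻ z, R.indicator (fun _ => b) z := by
        rw [lintegral_indicator hR, setLIntegral_const, mul_comm]
    _ ≤ _ := by
        apply lintegral_mono
        intro z
        by_cases hz : z ∈ R
        · simp only [indicator_of_mem hz]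
          refine (hb z hz).trans ?_
          have hms : MeasurableSet {t : ℝ | pt z t ∈ pball ∧ proj (pt z t) ∈ S} :=
            ((measurable_pt z) measurableSet_pball).inter
              ((measurable_proj.comp (measurable_pt z)) hS)
          rw [← lintegral_indicator_one hms]
          apply lintegral_mono
          intro t
          by_cases ht : pt z t ∈ pball ∧ proj (pt z t) ∈ S
          · have e1 : t ∈ {t : ℝ | pt z t ∈ pball ∧ proj (pt z t) ∈ S} := ht
            rw [indicator_of_mem e1]
            simp only []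
            rw [indicator_of_mem ht.1, indicator_of_mem ht.2]
            simp
          · have e1 : t ∉ {t : ℝ | pt z t ∈ pball ∧ proj (pt z t) ∈ S} := ht
            rw [indicator_of_notMem e1]
            exact bot_le
        · simp [indicator_of_notMem hz]

end Pool.Agent.NH67.SH
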