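import Pool.Agent.NH67.SH.Defs

/-! # The set `A` satisfies the tubular geometric control condition -/

set_option autoImplicit false

open MeasureTheory Metric Set Filter
open scoped ContDiff Topology Pointwise

namespace Pool.Agent.NH67.SH

theorem inner3 (x y : Amb 2) : inner ℝ x y = x 0 * y 0 + x 1 * y 1 + x 2 * y 2 := by
  rw [PiLp.inner_apply, Fin.sum_univ_three]
  simp
  ring

theorem norm3 (x : Amb 2) : ‖x‖ ^ 2 = x 0 ^ 2 + x 1 ^ 2 + x 2 ^ 2 := by
  rw [← real_inner_self_eq_norm_sq, inner3]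
  ring

theorem sph_norm3 (x : Sph 2) :
    (x : Amb 2) 0 ^ 2 + (x : Amb 2) 1 ^ 2 + (x : Amb 2) 2 ^ 2 = 1 := by
  rw [← norm3]
  simp

/-- the set `A` -/
def setA : Set (Sph 2) :=
  {x | 1 / 4 ≤ |(x : Amb 2) 2| ∨ |(x : Amb 2) 1| ≤ 2 * |(x : Amb 2) 0|}

theorem continuous_coord (i : Fin 3) : Continuous fun x : Sph 2 => (x : Amb 2) i :=
  (EuclideanSpace.proj i : Amb 2 →L[ℝ] ℝ).continuous.comp continuous_subtype_val

theorem isClosed_setA : IsClosed setA := by
  apply IsClosed.union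
  · exact isClosed_le continuous_const (continuous_coord 2).abs
  · exact isClosed_le (continuous_coord 1).abs (continuous_const.mul (continuous_coord 0).abs)

theorem measurableSet_setA : MeasurableSet setA := isClosed_setA.measurableSet

/-- the rotation by a right angle around `c` -/
noncomputable def rotLin (c : Amb 2) : Amb 2 →ₗ[ℝ] Amb 2 where
  toFun x := inner ℝ c x • c +
    !₂[c 1 * x 2 - c 2 * x 1, c 2 * x 0 - c 0 * x 2, c 0 * x 1 - c 1 * x 0]
  map_add' x y := by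
    ext i
    fin_cases i <;> simp [inner_add_right] <;> ring
  map_smul' t x := by
    ext i
    fin_cases i <;> simp [inner_smul_right] <;> ring

theorem rotLin_apply (c x : Amb 2) :
    rotLin c x = inner ℝ c x • c +
      !₂[c 1 * x 2 - c 2 * x 1, c 2 * x 0 - c 0 * x 2, c 0 * x 1 - c 1 * x 0] := rfl

theorem rot_inner (c x y : Amb 2) (hc : ‖c‖ = 1) :
    inner ℝ (rotLin c x) (rotLin c y) = inner ℝ x y := by
  have h := norm3 c
  rw [hc] at h
  rw [inner3 (rotLin c x), inner3 x y]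
  simp only [rotLin_apply, inner3 c]
  simp
  linear_combination (-((c 0 * x 0 + c 1 * x 1 + c 2 * x 2) * (c 0 * y 0 + c 1 * y 1 + c 2 * y 2) +
    (x 0 * y 0 + x 1 * y 1 + x 2 * y 2))) * h

theorem rot_inner_self (c x : Amb 2) :
    inner ℝ x (rotLin c x) = inner ℝ c x ^ 2 := by
  rw [inner3 x]
  simp only [rotLin_apply, inner3 c]
  simp
  ring

theorem rot_inner_left (c x : Amb 2) (hc : ‖c‖ = 1) :
    inner ℝ c (rotLin c x) = inner ℝ c x := by
  have h := norm3 c
  rw [hc] at h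
  rw [inner3 c]
  simp only [rotLin_apply, inner3 c]
  simp
  linear_combination (-(c 0 * x 0 + c 1 * x 1 + c 2 * x 2)) * h

/-- the rotation as a linear isometry -/
noncomputable def rotIso (c : Amb 2) (hc : ‖c‖ = 1) : Amb 2 ≃ₗᵢ[ℝ] Amb 2 :=
  LinearIsometry.toLinearIsometryEquiv
    { toLinearMap := rotLin c
      norm_map' := fun x => by
        have h := rot_inner c x x hc
        rw [real_inner_self_eq_norm_sq, real_inner_self_eq_norm_sq] at h
        exact (sq_eq_sq₀ (norm_nonneg _) (norm_nonneg _)).1 h } rfl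

theorem rotIso_apply (c : Amb 2) (hc : ‖c‖ = 1) (x : Amb 2) : rotIso c hc x = rotLin c x := rfl

/-- the map of the sphere induced by a linear isometry -/
noncomputable def sphMap (L : Amb 2 ≃ₗᵢ[ℝ] Amb 2) (x : Sph 2) : Sph 2 := ⟨L x, by simp⟩

theorem measurable_sphMap (L : Amb 2 ≃ₗᵢ[ℝ] Amb 2) : Measurable (sphMap L) :=
  (L.continuous.comp continuous_subtype_val).measurable.subtype_mk

theorem vol_preimage_sphMap (L : Amb 2 ≃ₗᵢ[ℝ] Amb 2) {S : Set (Sph 2)} (hS : MeasurableSet S) :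
    vol 2 (sphMap L ⁻¹' S) = vol 2 S := by
  rw [vol, Measure.toSphere_apply' _ ((measurable_sphMap L) hS), Measure.toSphere_apply' _ hS]
  congr 1
  have e : (Ioo (0 : ℝ) 1 • ((↑) '' (sphMap L ⁻¹' S)) : Set (Amb 2)) =
      L ⁻¹' (Ioo (0 : ℝ) 1 • ((↑) '' S)) := by
    ext y
    simp only [Set.mem_smul, mem_image, mem_preimage]
    constructor
    · rintro ⟨r, hr, _, ⟨x, hx, rfl⟩, rfl⟩
      exact ⟨r, hr, _, ⟨sphMap L x, hx, rfl⟩, by simp [sphMap]⟩
    · rintro ⟨r, hr, _, ⟨x, hx, rfl⟩, h⟩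
      refine ⟨r, hr, L.symm x, ⟨⟨L.symm x, by simp⟩, ?_, rfl⟩, ?_⟩
      · have : sphMap L ⟨L.symm x, by simp⟩ = x := by
          ext1; simp [sphMap]
        change sphMap L _ ∈ S
        rw [this]; exact hx
      · apply L.injective
        rw [map_smul, ← h]
        simp
  rw [e]
  exact (LinearIsometryEquiv.measurePreserving L).measure_preimage_emb
    L.toHomeomorph.measurableEmbedding _

theorem isOpen_tube (γ : Set (Sph 2)) (R : ℝ) : IsOpen (tube γ R) := by
  have : tube γ R = ⋃ y ∈ γ, {x | gdist x y < R} := by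
    ext x; simp [tube]
  rw [this]
  apply isOpen_biUnion
  intro y _
  apply isOpen_lt _ continuous_const
  have hne : ∀ x : Sph 2, (x : Amb 2) ≠ 0 := by
    intro x h
    have : ‖(x : Amb 2)‖ = 1 := by simp
    rw [h] at this; simp at this
  rw [continuous_iff_continuousAt]
  intro x
  have h := InnerProductGeometry.continuousAt_angle (x := ((x : Amb 2), (y : Amb 2)))
    (hne x) (hne y)
  exact ContinuousAt.comp (f := fun x : Sph 2 => ((x : Amb 2), (y : Amb 2))) h
    (by fun_prop)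

theorem exists_normal {W : Submodule ℝ (Amb 2)} (hW : Module.finrank ℝ W = 2) :
    ∃ c : Amb 2, ‖c‖ = 1 ∧ ∀ y, y ∈ W ↔ inner ℝ c y = 0 := by
  have h3 : Module.finrank ℝ (Amb 2) = 3 := by simp
  have h1 : Module.finrank ℝ Wᗮ = 1 := by
    have := Submodule.finrank_add_finrank_orthogonal W
    omega
  have hne : Wᗮ ≠ ⊥ := by
    intro h; rw [h] at h1; simp at h1
  obtain ⟨w, hw, hw0⟩ := Submodule.exists_mem_ne_zero_of_ne_bot hne
  have hwn : ‖w‖ ≠ 0 := norm_ne_zero_iff.2 hw0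
  refine ⟨‖w‖⁻¹ • w, by simp [norm_smul, hwn], ?_⟩
  set c : Amb 2 := ‖w‖⁻¹ • w with hc
  have hcW : c ∈ Wᗮ := Submodule.smul_mem _ _ hw
  have hc0 : c ≠ 0 := by
    rw [hc]; exact smul_ne_zero (inv_ne_zero hwn) hw0
  have hle : W ≤ (ℝ ∙ c)ᗮ := by
    intro y hy
    rw [Submodule.mem_orthogonal_singleton_iff_inner_right]
    have := (Submodule.mem_orthogonal W c).1 hcW y hy
    rw [real_inner_comm]; exact this
  have hfin : Module.finrank ℝ (ℝ ∙ c : Submodule ℝ (Amb 2)) = 1 := finrank_span_singleton hc0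
  have hfin2 : Module.finrank ℝ ((ℝ ∙ c)ᗮ : Submodule ℝ (Amb 2)) = 2 := by
    have := Submodule.finrank_add_finrank_orthogonal (ℝ ∙ c : Submodule ℝ (Amb 2))
    omega
  have heq : W = (ℝ ∙ c)ᗮ := Submodule.eq_of_le_of_finrank_eq hle (by rw [hW, hfin2])
  intro y
  rw [heq, Submodule.mem_orthogonal_singleton_iff_inner_right]

theorem not_mem_setA {x : Sph 2} (hx : x ∉ setA) :
    |(x : Amb 2) 2| < 1 / 4 ∧ 2 * |(x : Amb 2) 0| < |(x : Amb 2) 1| := by
  simpa [setA, not_or] using hx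

theorem real_aux {a b d a' b' d' : ℝ} (hs : a ^ 2 + b ^ 2 + d ^ 2 = 1)
    (hs' : a' ^ 2 + b' ^ 2 + d' ^ 2 = 1) (h2 : |d| < 1 / 4) (h1 : 2 * |a| < |b|)
    (h2' : |d'| < 1 / 4) (h1' : 2 * |a'| < |b'|) (h8 : 0 ≤ a * a' + b * b' + d * d')
    (hq : a * a' + b * b' + d * d' ≤ 1 / 4) : False := by
  have hd : d ^ 2 < 1 / 16 := by
    rw [← sq_abs]; nlinarith [abs_nonneg d]
  have hd' : d' ^ 2 < 1 / 16 := by
    rw [← sq_abs]; nlinarith [abs_nonneg d']
  have ha : a ^ 2 ≤ b ^ 2 / 4 := by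
    rw [← sq_abs a, ← sq_abs b]; nlinarith [abs_nonneg a, abs_nonneg b]
  have ha' : a' ^ 2 ≤ b' ^ 2 / 4 := by
    rw [← sq_abs a', ← sq_abs b']; nlinarith [abs_nonneg a', abs_nonneg b']
  have hb : 3 / 4 < b ^ 2 := by nlinarith
  have hb' : 3 / 4 < b' ^ 2 := by nlinarith
  have hbb : 3 / 4 < |b * b'| := by
    have h : ((3 : ℝ) / 4) ^ 2 < (b * b') ^ 2 := by
      have := mul_lt_mul'' hb hb' (by norm_num) (by norm_num)
      rw [mul_pow, sq (3 / 4 : ℝ)]
      exact this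
    exact lt_of_pow_lt_pow_left₀ 2 (abs_nonneg _) (by rw [sq_abs]; exact h)
  have haa : |a * a'| ≤ |b * b'| / 4 := by
    have h : (a * a') ^ 2 ≤ (b * b' / 4) ^ 2 := by
      have := mul_le_mul ha ha' (sq_nonneg _) (by positivity)
      calc (a * a') ^ 2 = a ^ 2 * a' ^ 2 := by ring
        _ ≤ b ^ 2 / 4 * (b' ^ 2 / 4) := this
        _ = (b * b' / 4) ^ 2 := by ring
    have h' := sq_le_sq.1 h
    rw [abs_div] at h'
    simpa using h'
  have hdd : |d * d'| ≤ 1 / 16 := by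
    rw [abs_mul]
    nlinarith [abs_nonneg d, abs_nonneg d']
  have h5 : (1 : ℝ) / 2 < |a * a' + b * b' + d * d'| := by
    have h6 : |b * b'| ≤ |a * a' + b * b' + d * d'| + |a * a'| + |d * d'| := by
      rcases abs_cases (b * b') with ⟨h, _⟩ | ⟨h, _⟩ <;>
      rcases abs_cases (a * a' + b * b' + d * d') with ⟨g, _⟩ | ⟨g, _⟩ <;>
      linarith [le_abs_self (a * a'), neg_abs_le (a * a'), le_abs_self (d * d'),
        neg_abs_le (d * d')]
    linarith
  rw [abs_of_nonneg h8] at h5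
  linarith

theorem tgcc_setA : TGCC (m := 2) (fun _ => setA) := by
  refine ⟨1 / 2, 1 / 2, by norm_num, by norm_num, ?_⟩
  rintro γ ⟨W, hW, rfl⟩ lam hlam
  set R : ℝ := 1 / 2 * lam ^ (-(1 / 2) : ℝ) with hR
  have hR2 : R ≤ 1 / 2 := by
    have : lam ^ (-(1 / 2) : ℝ) ≤ 1 := Real.rpow_le_one_of_one_le_of_nonpos hlam (by norm_num)
    rw [hR]; linarith
  obtain ⟨c, hc, hcW⟩ := exists_normal hW
  set T : Set (Sph 2) := tube {x : Sph 2 | (x : Amb 2) ∈ W} R with hT
  have hTo : IsOpen T := isOpen_tube _ _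
  set g := sphMap (rotIso c hc) with hg
  have hgc : ∀ x : Sph 2, ((g x : Sph 2) : Amb 2) = rotLin c x := fun x => rfl
  -- the rotation preserves the tube
  have hgT : ∀ x ∈ T, g x ∈ T := by
    rintro x ⟨y, hy, hxy⟩
    refine ⟨g y, ?_, ?_⟩
    · change ((g y : Sph 2) : Amb 2) ∈ W
      rw [hcW, hgc, rot_inner_left c _ hc]
      exact (hcW _).1 hy
    · have : gdist (g x) (g y) = gdist x y := by
        unfold gdist InnerProductGeometry.angle
        rw [hgc, hgc, rot_inner c _ _ hc]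
        congr 2
        have h1 : ∀ z : Sph 2, ‖rotLin c z‖ = ‖(z : Amb 2)‖ := fun z =>
          (rotIso c hc).norm_map z
        rw [h1, h1]
      rw [this]; exact hxy
  -- points of the tube are almost orthogonal to `c`
  have hcx : ∀ x ∈ T, inner ℝ c (x : Amb 2) ^ 2 ≤ 1 / 4 := by
    rintro x ⟨y, hy, hxy⟩
    have hy0 : inner ℝ c (y : Amb 2) = (0 : ℝ) := (hcW _).1 hy
    have hnx : ‖(x : Amb 2)‖ = 1 := by simp
    have hny : ‖(y : Amb 2)‖ = 1 := by simp
    have hcos : Real.cos (gdist x y) = inner ℝ (x : Amb 2) (y : Amb 2) := by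
      unfold gdist
      rw [InnerProductGeometry.cos_angle, hnx, hny]; simp
    have hg0 : 0 ≤ gdist x y := InnerProductGeometry.angle_nonneg _ _
    have h1 : 1 - (gdist x y) ^ 2 / 2 ≤ Real.cos (gdist x y) := Real.one_sub_sq_div_two_le_cos
    have h2 : (gdist x y) ^ 2 ≤ 1 / 4 := by nlinarith
    have h3 : ‖(x : Amb 2) - y‖ ^ 2 ≤ 1 / 4 := by
      rw [norm_sub_sq_real, hnx, hny, ← hcos]; linarith
    have h4 : inner ℝ c (x : Amb 2) = inner ℝ c ((x : Amb 2) - y) := by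
      rw [inner_sub_right, hy0, sub_zero]
    rw [h4]
    have h5 := abs_real_inner_le_norm c ((x : Amb 2) - y)
    rw [hc, one_mul] at h5
    calc inner ℝ c ((x : Amb 2) - y) ^ 2 = |inner ℝ c ((x : Amb 2) - y)| ^ 2 := (sq_abs _).symm
      _ ≤ ‖(x : Amb 2) - y‖ ^ 2 := by
        apply pow_le_pow_left₀ (abs_nonneg _) h5
      _ ≤ 1 / 4 := h3
  -- the rotation maps the bad part into `A`
  have hbad : T \ setA ⊆ g ⁻¹' (setA ∩ T) := by
    rintro x ⟨hxT, hxA⟩
    refine ⟨?_, hgT x hxT⟩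
    by_contra hgA
    obtain ⟨h2, h1⟩ := not_mem_setA hxA
    obtain ⟨h2', h1'⟩ := not_mem_setA hgA
    have hs := sph_norm3 x
    have hs' := sph_norm3 (g x)
    have hin := rot_inner_self c (x : Amb 2)
    rw [← hgc, inner3] at hin
    have hq := hcx x hxT
    rw [← hin] at hq
    exact real_aux hs hs' h2 h1 h2' h1' (by rw [hin]; positivity) hq
  have hm : MeasurableSet (setA ∩ T) := measurableSet_setA.inter hTo.measurableSet
  have hle : vol 2 (T \ setA) ≤ vol 2 (setA ∩ T) := by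
    calc vol 2 (T \ setA) ≤ vol 2 (g ⁻¹' (setA ∩ T)) := measure_mono hbad
      _ = vol 2 (setA ∩ T) := vol_preimage_sphMap _ hm
  have : IsFiniteMeasure (vol 2) := by unfold vol; infer_instance
  have hle' : (vol 2).real (T \ setA) ≤ (vol 2).real (setA ∩ T) :=
    ENNReal.toReal_mono (measure_ne_top _ _) hle
  have hsum : (vol 2).real T = (vol 2).real (T ∩ setA) + (vol 2).real (T \ setA) :=
    (measureReal_inter_add_sdiff (μ := vol 2) (s := T) measurableSet_setA).symm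
  rw [inter_comm T setA] at hsum
  linarith

end Pool.Agent.NH67.SH
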