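import Mathlib

/-!
# Spherical harmonics, tubes around great circles: definitions

Definitions for MP_af75b4_an: the round sphere `S^m ⊂ ℝ^(m+1)` with its surface measure, great
circles and tubes around them, eigenfunctions of the Laplace-Beltrami operator, the tubular
geometric control condition and the `L^p` Logvinenko-Sereda property.
-/

set_option autoImplicit false

open MeasureTheory Metric Set
open scoped ContDiff

namespace Pool.Agent.NH67.SH

/-- The Euclidean space `ℝ^(m+1)`. -/
abbrev Amb (m : ℕ) : Type := EuclideanSpace ℝ (Fin (m + 1))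

/-- The unit sphere `S^m` of `ℝ^(m+1)`. -/
abbrev Sph (m : ℕ) : Type := sphere (0 : Amb m) 1

/-- The Riemannian volume of the round sphere `S^m` (the surface measure of the unit sphere). -/
noncomputable def vol (m : ℕ) : Measure (Sph m) := (volume : Measure (Amb m)).toSphere

/-- The geodesic distance of `S^m`: the angle between the two unit vectors. -/
noncomputable def gdist {m : ℕ} (x y : Sph m) : ℝ :=
  InnerProductGeometry.angle (x : Amb m) (y : Amb m)

/-- A closed geodesic of `S^m`: a great circle, i.e. the set of unit vectors of a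
two-dimensional linear subspace. -/
def IsClosedGeodesic {m : ℕ} (γ : Set (Sph m)) : Prop :=
  ∃ W : Submodule ℝ (Amb m), Module.finrank ℝ W = 2 ∧ γ = {x : Sph m | (x : Amb m) ∈ W}

/-- The tube of radius `R` around `γ`: the points at geodesic distance less than `R` of `γ`. -/
def tube {m : ℕ} (γ : Set (Sph m)) (R : ℝ) : Set (Sph m) := {x | ∃ y ∈ γ, gdist x y < R}

/-- The tubular geometric control condition for a family `A lam`, `lam ≥ 1`. -/
def TGCC {m : ℕ} (A : ℝ → Set (Sph m)) : Prop :=
  ∃ c ρ : ℝ, 0 < c ∧ 0 < ρ ∧ ∀ γ : Set (Sph m), IsClosedGeodesic γ → ∀ lam : ℝ, 1 ≤ lam →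
    ρ * (vol m).real (tube γ (c * lam ^ (-(1 / 2) : ℝ))) ≤
      (vol m).real (A lam ∩ tube γ (c * lam ^ (-(1 / 2) : ℝ)))

open scoped Classical in
/-- The extension of a function on the sphere to a function on `ℝ^(m+1)` which is constant on the
rays (with value `0` at the origin). -/
noncomputable def ext {m : ℕ} (e : Sph m → ℂ) (y : Amb m) : ℂ :=
  if h : ‖y‖⁻¹ • y ∈ sphere (0 : Amb m) 1 then e ⟨‖y‖⁻¹ • y, h⟩ else 0

/-- `e` is an eigenfunction of frequency `lam`: a smooth complex-valued function on the sphere with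
`-Δ e = lam² e`, where the Laplace-Beltrami operator `Δ` of the sphere is computed as the Euclidean
Laplacian of the extension which is constant on the rays. -/
structure IsEigenfunction {m : ℕ} (lam : ℝ) (e : Sph m → ℂ) : Prop where
  smooth : ContDiffOn ℝ ∞ (ext e) {0}ᶜ
  eigen : ∀ x : Sph m, -(Laplacian.laplacian (ext e) (x : Amb m)) = ((lam : ℂ) ^ 2) * e x

/-- The family `A lam`, `lam ≥ 1`, is `L^p` Logvinenko-Sereda for eigenfunctions. -/
def LogvinenkoSereda {m : ℕ} (p : ℝ) (A : ℝ → Set (Sph m)) : Prop :=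
  ∃ C : ℝ, 0 < C ∧ ∀ lam : ℝ, 1 ≤ lam → ∀ e : Sph m → ℂ, IsEigenfunction lam e →
    C * ∫ x, ‖e x‖ ^ p ∂(vol m) ≤ ∫ x in A lam, ‖e x‖ ^ p ∂(vol m)

/-! ### Basic facts -/

theorem ext_of_ne {m : ℕ} (e : Sph m → ℂ) {y : Amb m} (hy : y ≠ 0) :
    ext e y = e ⟨‖y‖⁻¹ • y, by simp [norm_smul, hy]⟩ := by
  have h : ‖y‖⁻¹ • y ∈ sphere (0 : Amb m) 1 := by simp [norm_smul, hy]
  simp only [ext, h, dif_pos]

theorem ext_coe {m : ℕ} (e : Sph m → ℂ) (x : Sph m) : ext e (x : Amb m) = e x := by
  have hx : ‖(x : Amb m)‖ = 1 := by simp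
  have hx0 : (x : Amb m) ≠ 0 := by
    intro h; rw [h] at hx; simp at hx
  rw [ext_of_ne e hx0]
  congr 1
  ext1
  simp

end Pool.Agent.NH67.SH
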