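import Pool.Agent.NH67.SH.Defs

/-! # Powers of isotropic linear forms are eigenfunctions -/

set_option autoImplicit false

open MeasureTheory Metric Set Filter
open scoped ContDiff Topology

namespace Pool.Agent.NH67.SH

/-- second derivative along a line -/
theorem iteratedFDeriv_line {E : Type*} [NormedAddCommGroup E] [NormedSpace ℝ E] {F : E → ℂ}
    {x v : E} (hF : ContDiffAt ℝ 2 F x) :
    iteratedFDeriv ℝ 2 F x ![v, v] =
      deriv (fun t : ℝ => deriv (fun s : ℝ => F (x + s • v)) t) 0 := by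
  have hline : ∀ t : ℝ, HasDerivAt (fun s : ℝ => x + s • v) v t := by
    intro t
    simpa using ((hasDerivAt_id t).smul_const v).const_add x
  have hev : ∀ᶠ t : ℝ in 𝓝 0, DifferentiableAt ℝ F (x + t • v) := by
    have h1 : ∀ᶠ y in 𝓝 x, ContDiffAt ℝ 2 F y := hF.eventually (by simp)
    have hc : Tendsto (fun t : ℝ => x + t • v) (𝓝 0) (𝓝 x) := by
      have : ContinuousAt (fun t : ℝ => x + t • v) 0 := (hline 0).continuousAt
      simpa [ContinuousAt] using this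
    filter_upwards [hc.eventually h1] with t ht
    exact ht.differentiableAt (by norm_num)
  have h2 : (fun t : ℝ => deriv (fun s : ℝ => F (x + s • v)) t) =ᶠ[𝓝 0]
      fun t => fderiv ℝ F (x + t • v) v := by
    filter_upwards [hev] with t ht
    have := ht.hasFDerivAt.comp_hasDerivAt t (hline t)
    exact this.deriv
  rw [h2.deriv_eq]
  have h3 : DifferentiableAt ℝ (fderiv ℝ F) x :=
    (hF.fderiv_right (m := 1) (by norm_num)).differentiableAt (by norm_num)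
  have h4 : HasFDerivAt (fderiv ℝ F) (fderiv ℝ (fderiv ℝ F) x) (x + (0 : ℝ) • v) := by
    simpa using h3.hasFDerivAt
  have h5 := h4.comp_hasDerivAt (0 : ℝ) (hline 0)
  have h6 : HasDerivAt (fun t : ℝ => fderiv ℝ F (x + t • v) v)
      (fderiv ℝ (fderiv ℝ F) x v v) 0 := by
    have := h5.clm_apply (hasDerivAt_const (0 : ℝ) v)
    simpa using this
  rw [h6.deriv, iteratedFDeriv_two_apply]
  simp

/-- the second derivative of `(a + s b)^n / (1 + s²)^l`, `n = 2 l`, at `0` -/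
theorem deriv2_aux (a b : ℂ) (l : ℕ) :
    deriv (fun t : ℝ => deriv (fun s : ℝ => (a + s * b) ^ (2 * l) *
      ((((1 + s ^ 2) ^ l : ℝ) : ℂ))⁻¹) t) 0 =
      (2 * l) * ((2 * l : ℕ) - 1 : ℕ) * a ^ (2 * l - 2) * b ^ 2 - 2 * l * a ^ (2 * l) := by
  have hlin : ∀ t : ℝ, HasDerivAt (fun s : ℝ => a + (s : ℂ) * b) b t := by
    intro t
    have := ((Complex.ofRealCLM.hasDerivAt (x := t)).mul_const b).const_add a
    simpa using this
  have hpos : ∀ t : ℝ, (0 : ℝ) < (1 + t ^ 2) ^ l := fun t => by positivity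
  have hden : ∀ t : ℝ, HasDerivAt (fun s : ℝ => (((1 + s ^ 2) ^ l : ℝ) : ℂ))
      (((l * (1 + t ^ 2) ^ (l - 1) * (2 * t) : ℝ)) : ℂ) t := by
    intro t
    have h0 : HasDerivAt (fun s : ℝ => 1 + s ^ 2) (2 * t) t := by
      simpa using (hasDerivAt_pow 2 t).const_add 1
    have h1 : HasDerivAt (fun s : ℝ => (1 + s ^ 2) ^ l) (l * (1 + t ^ 2) ^ (l - 1) * (2 * t)) t :=
      h0.pow l
    exact h1.ofReal_comp
  have hφ : ∀ t : ℝ, HasDerivAt (fun s : ℝ => (a + s * b) ^ (2 * l) *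
      ((((1 + s ^ 2) ^ l : ℝ) : ℂ))⁻¹)
      (((2 * l : ℕ) : ℂ) * (a + t * b) ^ (2 * l - 1) * b * ((((1 + t ^ 2) ^ l : ℝ) : ℂ))⁻¹ +
        (a + t * b) ^ (2 * l) * (-(((l * (1 + t ^ 2) ^ (l - 1) * (2 * t) : ℝ)) : ℂ) /
          ((((1 + t ^ 2) ^ l : ℝ) : ℂ)) ^ 2)) t := by
    intro t
    have h1 := (hlin t).pow (2 * l)
    have h2 := (hden t).inv (by exact_mod_cast (hpos t).ne')
    exact h1.mul h2
  have hfun : (fun t : ℝ => deriv (fun s : ℝ => (a + s * b) ^ (2 * l) *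
      ((((1 + s ^ 2) ^ l : ℝ) : ℂ))⁻¹) t) = fun t : ℝ =>
      (((2 * l : ℕ) : ℂ) * (a + t * b) ^ (2 * l - 1) * b * ((((1 + t ^ 2) ^ l : ℝ) : ℂ))⁻¹ +
        (t : ℂ) * ((a + t * b) ^ (2 * l) * (-(((l * (1 + t ^ 2) ^ (l - 1) * 2 : ℝ)) : ℂ) /
          ((((1 + t ^ 2) ^ l : ℝ) : ℂ)) ^ 2))) := by
    funext t
    rw [(hφ t).deriv]
    push_cast
    ring
  rw [hfun]
  have hA : HasDerivAt (fun t : ℝ => ((2 * l : ℕ) : ℂ) * (a + t * b) ^ (2 * l - 1) * b *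
      ((((1 + t ^ 2) ^ l : ℝ) : ℂ))⁻¹)
      (((2 * l : ℕ) : ℂ) * (((2 * l - 1 : ℕ) : ℂ) * (a + (0 : ℝ) * b) ^ (2 * l - 1 - 1) * b) * b *
        ((((1 + (0 : ℝ) ^ 2) ^ l : ℝ) : ℂ))⁻¹ +
        ((2 * l : ℕ) : ℂ) * (a + (0 : ℝ) * b) ^ (2 * l - 1) * b *
        (-(((l * (1 + (0 : ℝ) ^ 2) ^ (l - 1) * (2 * (0 : ℝ)) : ℝ)) : ℂ) /
          ((((1 + (0 : ℝ) ^ 2) ^ l : ℝ) : ℂ)) ^ 2)) 0 := by
    have h1 := (((hlin 0).pow (2 * l - 1)).const_mul ((2 * l : ℕ) : ℂ)).mul_const b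
    have h2 := (hden 0).inv (by exact_mod_cast (hpos 0).ne')
    exact h1.mul h2
  have hBc : ContinuousAt (fun t : ℝ => ((a + t * b) ^ (2 * l) *
      (-(((l * (1 + t ^ 2) ^ (l - 1) * 2 : ℝ)) : ℂ) /
          ((((1 + t ^ 2) ^ l : ℝ) : ℂ)) ^ 2))) 0 := by
    apply ContinuousAt.mul
    · fun_prop
    · apply ContinuousAt.div
      · fun_prop
      · fun_prop
      · simp
  have hB : HasDerivAt (fun t : ℝ => (t : ℂ) * ((a + t * b) ^ (2 * l) *
      (-(((l * (1 + t ^ 2) ^ (l - 1) * 2 : ℝ)) : ℂ) /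
          ((((1 + t ^ 2) ^ l : ℝ) : ℂ)) ^ 2))) (-(2 * l * a ^ (2 * l))) 0 := by
    rw [hasDerivAt_iff_tendsto_slope]
    have h1 : Tendsto (fun t : ℝ => ((a + t * b) ^ (2 * l) *
      (-(((l * (1 + t ^ 2) ^ (l - 1) * 2 : ℝ)) : ℂ) /
          ((((1 + t ^ 2) ^ l : ℝ) : ℂ)) ^ 2))) (𝓝[≠] 0) (𝓝 (-(2 * l * a ^ (2 * l)))) := by
      have := hBc.tendsto.mono_left (nhdsWithin_le_nhds (s := {0}ᶜ))
      convert this using 2
      simp
      ring
    refine h1.congr' ?_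
    filter_upwards [self_mem_nhdsWithin] with t ht
    have ht0 : (t : ℂ) ≠ 0 := by exact_mod_cast ht
    simp only [slope, vsub_eq_sub, sub_zero, Complex.ofReal_zero, zero_mul, Complex.real_smul]
    push_cast
    field_simp
  refine (HasDerivAt.deriv (hA.fun_add hB)).trans ?_
  have e1 : 2 * l - 1 - 1 = 2 * l - 2 := by omega
  rw [e1]
  push_cast
  simp
  ring

end Pool.Agent.NH67.SH
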