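import Pool.Agent.NH67.SH.Signs

/-! # Assembly -/

set_option autoImplicit false

open MeasureTheory Metric Set Filter
open scoped Topology ENNReal

namespace Pool.Agent.NH67.SH

theorem lin_diff (a b a' b' : ℝ) (x : Amb 2) :
    lin a b x - lin a' b' x = -((a * x 1 + b * x 0) - (a' * x 1 + b' * x 0)) := by
  simp [lin]; ring

/-- parameters: `N, s` with `s = 64 Q N ^ N` -/
structure Par (N s : ℕ) (Q : ℝ) : Prop where
  hN : 0 < N
  hQ : 2 ≤ Q
  hs : (s : ℝ) = 64 * Q * (N : ℝ) ^ N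

theorem Par.s_ge {N s : ℕ} {Q : ℝ} (h : Par N s Q) : 64 * Q ≤ s := by
  have h1 : (1 : ℝ) ≤ (N : ℝ) ^ N := one_le_pow₀ (by exact_mod_cast h.hN)
  have := h.hQ
  rw [h.hs]
  nlinarith

theorem Par.sw {N s : ℕ} {Q : ℝ} (h : Par N s Q) : (s : ℝ) * (1 / 64 / (N : ℝ) ^ N) = Q := by
  have hN' : (0 : ℝ) < N := by exact_mod_cast h.hN
  rw [h.hs]; field_simp

/-- upper bound for beams, away from their tube -/
theorem beam_le_of {N s : ℕ} {Q : ℝ} (h : Par N s Q) (d : Fin N → Fin N) (x : Sph 2)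
    {c : ℝ} (hc : 0 ≤ c) (hc2 : 1 / 72 ≤ c ^ 2)
    (hl : c * (1 / 64 / (N : ℝ) ^ N) ≤ |lin (sa d) (sb d) (x : Amb 2)|) :
    ‖beam (sa d) (sb d) s x‖ ≤ Real.exp (-(Q ^ 2 / 144)) := by
  refine (norm_beam_le (sa_le h.hN d) (sb_le h.hN d) s x).trans ?_
  apply Real.exp_le_exp.2
  have hN' : (0 : ℝ) < N := by exact_mod_cast h.hN
  have hw0 : 0 ≤ c * (1 / 64 / (N : ℝ) ^ N) := by positivity
  have h1 : (c * (1 / 64 / (N : ℝ) ^ N)) ^ 2 ≤ lin (sa d) (sb d) (x : Amb 2) ^ 2 := by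
    rw [← sq_abs (lin (sa d) (sb d) (x : Amb 2))]
    exact pow_le_pow_left₀ hw0 hl 2
  have h2 : (s : ℝ) ^ 2 * (c * (1 / 64 / (N : ℝ) ^ N)) ^ 2 = c ^ 2 * Q ^ 2 := by
    rw [← h.sw]; ring
  have h3 : c ^ 2 * Q ^ 2 ≤ (s : ℝ) ^ 2 * lin (sa d) (sb d) (x : Amb 2) ^ 2 := by
    rw [← h2]; gcongr
  have h4 : 1 / 72 * Q ^ 2 ≤ c ^ 2 * Q ^ 2 := by gcongr
  linarith

/-- outside of `G`, on `A`, all beams are tiny -/
theorem beam_le_out {N s : ℕ} {Q : ℝ} (h : Par N s Q) (d : Fin N → Fin N) {x : Sph 2}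
    (hA : x ∈ setA) (hG : x ∉ setG N) :
    ‖beam (sa d) (sb d) s x‖ ≤ Real.exp (-(Q ^ 2 / 144)) := by
  have hN' : (0 : ℝ) < N := by exact_mod_cast h.hN
  have hpow : (1 : ℝ) ≤ (N : ℝ) ^ N := one_le_pow₀ (by exact_mod_cast h.hN)
  set w : ℝ := 1 / 64 / (N : ℝ) ^ N with hw
  have hw0 : 0 < w := by rw [hw]; positivity
  have hw1 : w ≤ 1 / 64 := by
    rw [hw]; exact div_le_self (by norm_num) hpow
  have hs := sph_norm3 x
  by_cases h2 : 1 / 4 ≤ |(x : Amb 2) 2|
  · apply beam_le_of h d x (c := 1) (by norm_num) (by norm_num)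
    have hx : ∀ i, |(x : Amb 2) i| ≤ 1 := by
      intro i
      have h2 := PiLp.norm_apply_le (x : Amb 2) i
      rw [Real.norm_eq_abs] at h2
      have : ‖(x : Amb 2)‖ = 1 := by simp
      linarith
    have e : (x : Amb 2) 2 = lin (sa d) (sb d) (x : Amb 2) + sa d * (x : Amb 2) 1 +
        sb d * (x : Amb 2) 0 := by simp only [lin]; ring
    have h5 : |(x : Amb 2) 2| ≤ |lin (sa d) (sb d) (x : Amb 2)| + 1 / 64 + 1 / 32 := by
      conv_lhs => rw [e]
      refine (abs_add_le _ _).trans (add_le_add ((abs_add_le _ _).trans (add_le_add le_rfl ?_)) ?_)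
      · rw [abs_mul]
        calc |sa d| * |(x : Amb 2) 1| ≤ 1 / 64 * 1 := by
              gcongr
              · exact sa_le h.hN d
              · exact hx 1
          _ = 1 / 64 := by norm_num
      · rw [abs_mul]
        calc |sb d| * |(x : Amb 2) 0| ≤ 1 / 32 * 1 := by
              gcongr
              · exact sb_le h.hN d
              · exact hx 0
          _ = 1 / 32 := by norm_num
    rw [← hw]
    linarith
  · have h1 : |(x : Amb 2) 1| ≤ 2 * |(x : Amb 2) 0| := hA.resolve_left h2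
    have hd : w * |(x : Amb 2) 0| < |lin (sa d) (sb d) (x : Amb 2)| := by
      by_contra hcon
      exact hG ⟨h1, d, not_lt.1 hcon⟩
    apply beam_le_of h d x (c := |(x : Amb 2) 0|) (abs_nonneg _) _
      (by rw [← hw]; linarith)
    push Not at h2
    have e1 : (x : Amb 2) 1 ^ 2 ≤ 4 * |(x : Amb 2) 0| ^ 2 := by
      rw [← sq_abs]; nlinarith [abs_nonneg ((x : Amb 2) 1)]
    have e2 : (x : Amb 2) 2 ^ 2 ≤ 1 / 16 := by
      rw [← sq_abs]; nlinarith [abs_nonneg ((x : Amb 2) 2)]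
    have e3 : |(x : Amb 2) 0| ^ 2 = (x : Amb 2) 0 ^ 2 := sq_abs _
    rw [e3] at e1 ⊢
    linarith

theorem core_x0 {N s : ℕ} {Q : ℝ} (h : Par N s Q) (d : Fin N → Fin N) {x : Sph 2}
    (hx : x ∈ core (sa d) (sb d) s) : 1 / 18 ≤ (x : Amb 2) 0 ^ 2 := by
  obtain ⟨h0, h1, h2, h3⟩ := hx
  have hs := sph_norm3 x
  have hsg := h.s_ge
  have hQ := h.hQ
  have e : (x : Amb 2) 2 = lin (sa d) (sb d) (x : Amb 2) + sa d * (x : Amb 2) 1 +
      sb d * (x : Amb 2) 0 := by simp only [lin]; ring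
  have h4 : (x : Amb 2) 0 / (2 * s) ≤ (x : Amb 2) 0 / 2 := by
    apply div_le_div_of_nonneg_left h0.le (by norm_num)
    linarith
  have h5 : |(x : Amb 2) 2| ≤ (x : Amb 2) 0 := by
    rw [e]
    refine (abs_add_le _ _).trans ?_
    have h6 := abs_add_le (lin (sa d) (sb d) (x : Amb 2)) (sa d * (x : Amb 2) 1)
    have h7 : |sa d * (x : Amb 2) 1| ≤ 1 / 64 * (4 * (x : Amb 2) 0) := by
      rw [abs_mul, abs_of_nonneg (show (0 : ℝ) ≤ (x : Amb 2) 1 by linarith)]
      exact mul_le_mul (sa_le h.hN d) h2 (by linarith) (by norm_num)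
    have h8 : |sb d * (x : Amb 2) 0| ≤ 1 / 32 * (x : Amb 2) 0 := by
      rw [abs_mul, abs_of_pos h0]
      gcongr
      exact sb_le h.hN d
    linarith
  have h9 : (x : Amb 2) 2 ^ 2 ≤ (x : Amb 2) 0 ^ 2 := by
    rw [← sq_abs]; nlinarith [abs_nonneg ((x : Amb 2) 2)]
  nlinarith

/-- in the core of another tube, the linear form is not small -/
theorem lin_core {N s : ℕ} {Q : ℝ} (h : Par N s Q) {d d' : Fin N → Fin N} (hdd : d ≠ d')
    {x : Sph 2} (hx : x ∈ core (sa d) (sb d) s) :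
    (x : Amb 2) 0 / 2 * (1 / 64 / (N : ℝ) ^ N) ≤ |lin (sa d') (sb d') (x : Amb 2)| := by
  obtain ⟨h0, h1, h2, h3⟩ := hx
  have hN' : (0 : ℝ) < N := by exact_mod_cast h.hN
  have hsg := h.s_ge
  have hQ := h.hQ
  have hs0 : (0 : ℝ) < s := by linarith
  set w : ℝ := 1 / 64 / (N : ℝ) ^ N with hw
  have hsw : (s : ℝ) * w = Q := h.sw
  have hsep := sep h.hN hdd h0.le h1
  have e1 : 1 / 64 * (x : Amb 2) 0 / (N : ℝ) ^ N = (x : Amb 2) 0 * w := by rw [hw]; ring
  rw [e1] at hsep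
  have e2 := lin_diff (sa d) (sb d) (sa d') (sb d') (x : Amb 2)
  have e3 : |lin (sa d) (sb d) (x : Amb 2) - lin (sa d') (sb d') (x : Amb 2)| =
      |(sa d * (x : Amb 2) 1 + sb d * (x : Amb 2) 0) -
        (sa d' * (x : Amb 2) 1 + sb d' * (x : Amb 2) 0)| := by rw [e2, abs_neg]
  rw [← e3] at hsep
  have h5 := abs_sub (lin (sa d) (sb d) (x : Amb 2)) (lin (sa d') (sb d') (x : Amb 2))
  have h6 : (x : Amb 2) 0 / (2 * s) ≤ (x : Amb 2) 0 * w / 2 := by
    rw [div_le_div_iff₀ (by positivity) (by norm_num)]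
    have : (x : Amb 2) 0 * 1 ≤ (x : Amb 2) 0 * (s * w) := by
      rw [hsw]
      exact mul_le_mul_of_nonneg_left (by linarith) h0.le
    nlinarith
  linarith

/-- the number of tubes -/
noncomputable def num (N : ℕ) : ℝ := (N : ℝ) ^ N

theorem card_num (N : ℕ) : ((Finset.univ : Finset (Fin N → Fin N)).card : ℝ) = num N := by
  rw [Finset.card_univ, Fintype.card_fun, Fintype.card_fin, num]; push_cast; rfl

/-- the superposition -/
noncomputable def sup (N s : ℕ) (ε : (Fin N → Fin N) → ℂ) (x : Sph 2) : ℂ :=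
  ∑ d : Fin N → Fin N, ε d * beam (sa d) (sb d) s x

theorem continuous_sup (N s : ℕ) (ε : (Fin N → Fin N) → ℂ) : Continuous (sup N s ε) := by
  unfold sup
  exact continuous_finsetSum _ fun d _ => continuous_const.mul (continuous_beam _ _ _)

theorem isEigenfunction_sup (N s : ℕ) (ε : (Fin N → Fin N) → ℂ) :
    IsEigenfunction (m := 2) (Real.sqrt ((2 * ((s ^ 2 : ℕ) : ℝ)) * (2 * ((s ^ 2 : ℕ) : ℝ) + 1)))
      (sup N s ε) :=
  isEigenfunction_sum Finset.univ (fun d => uu (sa d) (sb d)) (fun d => vv (sa d) (sb d))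
    (fun d => opair_uv _ _) (s ^ 2) ε

theorem sup_le_out {N s : ℕ} {Q : ℝ} (h : Par N s Q) {ε : (Fin N → Fin N) → ℂ}
    (hε : ∀ d, ‖ε d‖ = 1) {x : Sph 2} (hA : x ∈ setA) (hG : x ∉ setG N) :
    ‖sup N s ε x‖ ≤ num N * Real.exp (-(Q ^ 2 / 144)) := by
  unfold sup
  refine (norm_sum_le _ _).trans ?_
  calc ∑ d : Fin N → Fin N, ‖ε d * beam (sa d) (sb d) s x‖
      ≤ ∑ _d : Fin N → Fin N, Real.exp (-(Q ^ 2 / 144)) := by
        apply Finset.sum_le_sum
        intro d _
        rw [norm_mul, hε d, one_mul]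
        exact beam_le_out h d hA hG
    _ = _ := by rw [Finset.sum_const, nsmul_eq_mul, card_num]

theorem sup_ge_core {N s : ℕ} {Q : ℝ} (h : Par N s Q) {ε : (Fin N → Fin N) → ℂ}
    (hε : ∀ d, ‖ε d‖ = 1) (hE : num N * Real.exp (-(Q ^ 2 / 144)) ≤ 1 / 4)
    (d : Fin N → Fin N) {x : Sph 2} (hx : x ∈ core (sa d) (sb d) s) :
    1 / 2 ≤ ‖sup N s ε x‖ := by
  classical
  have hx0 := core_x0 h d hx
  have h0 := hx.1
  have hsg := h.s_ge
  have hQ := h.hQ
  have hs0 : (0 : ℝ) < s := by linarith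
  have hxle : (x : Amb 2) 0 ^ 2 ≤ 1 := by
    have := sph_norm3 x
    nlinarith [sq_nonneg ((x : Amb 2) 1), sq_nonneg ((x : Amb 2) 2)]
  have h1 : 3 / 4 ≤ ‖beam (sa d) (sb d) s x‖ := by
    refine le_trans ?_ (norm_beam_ge (sa d) (sb d) s x)
    have h2 : lin (sa d) (sb d) (x : Amb 2) ^ 2 ≤ ((x : Amb 2) 0 / (2 * s)) ^ 2 := by
      rw [← sq_abs (lin _ _ _)]
      exact pow_le_pow_left₀ (abs_nonneg _) hx.2.2.2 2
    have h3 : (s : ℝ) ^ 2 * ((x : Amb 2) 0 / (2 * s)) ^ 2 = (x : Amb 2) 0 ^ 2 / 4 := by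
      field_simp
      norm_num
    have h4 : (s : ℝ) ^ 2 * lin (sa d) (sb d) (x : Amb 2) ^ 2 ≤
        (s : ℝ) ^ 2 * ((x : Amb 2) 0 / (2 * s)) ^ 2 := by gcongr
    linarith
  have h2 : ∑ d' ∈ (Finset.univ : Finset (Fin N → Fin N)).erase d,
      ‖ε d' * beam (sa d') (sb d') s x‖ ≤ 1 / 4 := by
    calc _ ≤ ∑ _d' ∈ (Finset.univ : Finset (Fin N → Fin N)).erase d,
          Real.exp (-(Q ^ 2 / 144)) := by
          apply Finset.sum_le_sum
          intro d' hd'
          rw [norm_mul, hε d', one_mul]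
          have hne : d ≠ d' := (Finset.ne_of_mem_erase hd').symm
          apply beam_le_of h d' x (c := (x : Amb 2) 0 / 2) (by linarith) _ (lin_core h hne hx)
          have : ((x : Amb 2) 0 / 2) ^ 2 = (x : Amb 2) 0 ^ 2 / 4 := by ring
          rw [this]; linarith
      _ ≤ ∑ _d' : Fin N → Fin N, Real.exp (-(Q ^ 2 / 144)) := by
          apply Finset.sum_le_sum_of_subset_of_nonneg (Finset.erase_subset _ _)
          intro i _ _
          exact (Real.exp_pos _).le
      _ = num N * Real.exp (-(Q ^ 2 / 144)) := by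
          rw [Finset.sum_const, nsmul_eq_mul, card_num]
      _ ≤ 1 / 4 := hE
  have h3 : sup N s ε x = ε d * beam (sa d) (sb d) s x +
      ∑ d' ∈ (Finset.univ : Finset (Fin N → Fin N)).erase d, ε d' * beam (sa d') (sb d') s x := by
    unfold sup
    rw [← Finset.add_sum_erase _ _ (Finset.mem_univ d)]
  rw [h3]
  have h4 := norm_sub_le (ε d * beam (sa d) (sb d) s x +
      ∑ d' ∈ (Finset.univ : Finset (Fin N → Fin N)).erase d, ε d' * beam (sa d') (sb d') s x)
      (∑ d' ∈ (Finset.univ : Finset (Fin N → Fin N)).erase d, ε d' * beam (sa d') (sb d') s x)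
  rw [add_sub_cancel_right] at h4
  have h5 := norm_sum_le ((Finset.univ : Finset (Fin N → Fin N)).erase d)
    (fun d' => ε d' * beam (sa d') (sb d') s x)
  have h6 : ‖ε d * beam (sa d) (sb d) s x‖ = ‖beam (sa d) (sb d) s x‖ := by
    rw [norm_mul, hε d, one_mul]
  rw [h6] at h4
  linarith

theorem core_disjoint {N s : ℕ} {Q : ℝ} (h : Par N s Q) {d d' : Fin N → Fin N} (hdd : d ≠ d') :
    Disjoint (core (sa d) (sb d) s) (core (sa d') (sb d') s) := by
  rw [Set.disjoint_left]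
  intro x hx hx'
  have h1 := lin_core h hdd hx
  have h2 := hx'.2.2.2
  have h0 := hx.1
  have hsg := h.s_ge
  have hQ := h.hQ
  have hs0 : (0 : ℝ) < s := by linarith
  have hsw := h.sw
  set w : ℝ := 1 / 64 / (N : ℝ) ^ N with hw
  have h3 : (x : Amb 2) 0 / 2 * w ≤ (x : Amb 2) 0 / (2 * s) := h1.trans h2
  rw [le_div_iff₀ (by positivity)] at h3
  have h4 : (x : Amb 2) 0 / 2 * w * (2 * s) = (x : Amb 2) 0 * (s * w) := by ring
  rw [h4, hsw] at h3
  nlinarith

theorem rpow_integrable {F : Sph 2 → ℂ} (hF : Continuous F) {p : ℝ} (hp : 0 ≤ p)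
    (μ : Measure (Sph 2)) [IsFiniteMeasure μ] : Integrable (fun x => ‖F x‖ ^ p) μ :=
  cont_integrable (hF.norm.rpow_const fun _ => Or.inr hp) μ

/-- the main estimate -/
theorem main_estimate {N s : ℕ} {Q : ℝ} (h : Par N s Q) {p : ℝ} (hp : 1 ≤ p) (hp2 : p ≤ 2)
    {θ : ℝ} (hθ : 0 < θ) (hE : num N * Real.exp (-(Q ^ 2 / 144)) ≤ 1 / 4) :
    ∃ (lam : ℝ) (F : Sph 2 → ℂ), 1 ≤ lam ∧ IsEigenfunction (m := 2) lam F ∧
      (1 / 2) ^ p * (num N * (21 / 100000 / s)) ≤ ∫ x, ‖F x‖ ^ p ∂(vol 2) ∧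
      ∫ x in setA, ‖F x‖ ^ p ∂(vol 2) ≤ θ ^ (p - 2) * (num N * (24 / s)) +
        θ ^ p * (27 / 8 / N) +
        (num N * Real.exp (-(Q ^ 2 / 144))) ^ p * (vol 2).real univ := by
  classical
  have hsg := h.s_ge
  have hQ := h.hQ
  have hs0 : (0 : ℝ) < s := by linarith
  have hsN : 0 < s := by exact_mod_cast hs0
  have hp0 : 0 ≤ p := by linarith
  obtain ⟨ε, hε, hI⟩ := exists_signs ((vol 2).restrict (setG N)) Finset.univ
    (fun d : Fin N → Fin N => beam (sa d) (sb d) s) (fun d => continuous_beam _ _ _)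
  set F := sup N s ε with hF
  have hFc : Continuous F := continuous_sup N s ε
  refine ⟨_, F, ?_, isEigenfunction_sup N s ε, ?_, ?_⟩
  · rw [Real.one_le_sqrt]
    have h1 : (1 : ℝ) ≤ ((s ^ 2 : ℕ) : ℝ) := by
      exact_mod_cast Nat.one_le_pow _ _ hsN
    nlinarith
  · -- lower bound
    set U : Set (Sph 2) := ⋃ d ∈ (Finset.univ : Finset (Fin N → Fin N)),
      core (sa d) (sb d) s with hU
    have hUm : MeasurableSet U :=
      Finset.measurableSet_biUnion _ fun d _ => measurableSet_core _ _ _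
    have hUv : num N * (21 / 100000 / s) ≤ (vol 2).real U := by
      rw [hU, measureReal_biUnion_finset]
      · calc num N * (21 / 100000 / s) = ∑ _d : Fin N → Fin N, (21 / 100000 / (s : ℝ)) := by
              rw [Finset.sum_const, nsmul_eq_mul, card_num]
          _ ≤ _ := by
              apply Finset.sum_le_sum
              intro d _
              exact vol_core (sa_le h.hN d) (sb_le h.hN d) (by linarith)
      · intro d _ d' _ hdd
        exact core_disjoint h hdd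
      · intro d _
        exact measurableSet_core _ _ _
    have hlow : ∀ x ∈ U, (1 / 2 : ℝ) ^ p ≤ ‖F x‖ ^ p := by
      intro x hx
      rw [hU] at hx
      simp only [Finset.mem_univ, iUnion_true, mem_iUnion] at hx
      obtain ⟨d, hd⟩ := hx
      exact Real.rpow_le_rpow (by norm_num) (sup_ge_core h hε hE d hd) hp0
    calc (1 / 2) ^ p * (num N * (21 / 100000 / s)) ≤ (1 / 2) ^ p * (vol 2).real U := by gcongr
      _ = ∫ x in U, (1 / 2 : ℝ) ^ p ∂(vol 2) := by
          rw [setIntegral_const, smul_eq_mul, mul_comm]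
      _ ≤ ∫ x in U, ‖F x‖ ^ p ∂(vol 2) := by
          apply setIntegral_mono_on (integrable_const _).integrableOn
            (rpow_integrable hFc hp0 _).integrableOn hUm hlow
      _ ≤ ∫ x, ‖F x‖ ^ p ∂(vol 2) := by
          apply setIntegral_le_integral (rpow_integrable hFc hp0 _)
          exact ae_of_all _ fun x => by positivity
  · -- upper bound
    have hsplit : ∫ x in setA, ‖F x‖ ^ p ∂(vol 2) =
        (∫ x in setG N, ‖F x‖ ^ p ∂(vol 2)) + ∫ x in setA \ setG N, ‖F x‖ ^ p ∂(vol 2) := by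
      rw [← setIntegral_union disjoint_sdiff_right (measurableSet_setA.diff (measurableSet_setG N))
        (rpow_integrable hFc hp0 _).integrableOn (rpow_integrable hFc hp0 _).integrableOn,
        union_sdiff_cancel (setG_subset N)]
    have hG : ∫ x in setG N, ‖F x‖ ^ p ∂(vol 2) ≤ θ ^ (p - 2) * (num N * (24 / s)) +
        θ ^ p * (27 / 8 / N) := by
      have hsq : ∫ x in setG N, ‖F x‖ ^ 2 ∂(vol 2) ≤ num N * (24 / s) := by
        refine hI.trans ?_
        calc ∑ d : Fin N → Fin N, ∫ x in setG N, ‖beam (sa d) (sb d) s x‖ ^ 2 ∂(vol 2)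
            ≤ ∑ _d : Fin N → Fin N, 24 / (s : ℝ) := by
              apply Finset.sum_le_sum
              intro d _
              refine le_trans ?_ (beam_L2 (sa_le h.hN d) (sb_le h.hN d) hsN)
              apply setIntegral_le_integral (cont_integrable
                ((continuous_beam _ _ _).norm.pow 2) _)
              exact ae_of_all _ fun x => sq_nonneg _
          _ = num N * (24 / s) := by rw [Finset.sum_const, nsmul_eq_mul, card_num]
      calc ∫ x in setG N, ‖F x‖ ^ p ∂(vol 2)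
          ≤ ∫ x in setG N, (θ ^ (p - 2) * ‖F x‖ ^ 2 + θ ^ p) ∂(vol 2) := by
            apply integral_mono (rpow_integrable hFc hp0 _)
            · exact cont_integrable (by fun_prop) _
            · intro x
              exact rpow_le_aux (norm_nonneg _) hθ hp0 hp2
        _ = θ ^ (p - 2) * (∫ x in setG N, ‖F x‖ ^ 2 ∂(vol 2)) +
            θ ^ p * (vol 2).real (setG N) := by
            rw [integral_add (cont_integrable (by fun_prop) _) (integrable_const _),
              integral_const_mul, setIntegral_const, smul_eq_mul, mul_comm (θ ^ p)]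
        _ ≤ _ := by
            gcongr
            exact vol_setG h.hN
    have hO : ∫ x in setA \ setG N, ‖F x‖ ^ p ∂(vol 2) ≤
        (num N * Real.exp (-(Q ^ 2 / 144))) ^ p * (vol 2).real univ := by
      calc ∫ x in setA \ setG N, ‖F x‖ ^ p ∂(vol 2)
          ≤ ∫ x in setA \ setG N, (num N * Real.exp (-(Q ^ 2 / 144))) ^ p ∂(vol 2) := by
            apply setIntegral_mono_on (rpow_integrable hFc hp0 _).integrableOn
              (integrable_const _).integrableOn
              (measurableSet_setA.diff (measurableSet_setG N))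
            intro x hx
            exact Real.rpow_le_rpow (norm_nonneg _) (sup_le_out h hε hx.1 hx.2) hp0
        _ = (num N * Real.exp (-(Q ^ 2 / 144))) ^ p * (vol 2).real (setA \ setG N) := by
            rw [setIntegral_const, smul_eq_mul, mul_comm]
        _ ≤ _ := by
            have : 0 ≤ (num N * Real.exp (-(Q ^ 2 / 144))) ^ p := by
              apply Real.rpow_nonneg
              unfold num
              positivity
            exact mul_le_mul_of_nonneg_left (measureReal_mono (subset_univ _)) this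
    rw [hsplit]
    linarith

/-! ### The limit -/

/-- for `k ≥ 11` the error term is tiny -/
theorem error_small {k : ℕ} (hk : 11 ≤ k) :
    num (k ^ 8) * Real.exp (-(((k : ℝ) ^ 6) ^ 2 / 144)) ≤ Real.exp (-(k : ℝ)) := by
  have hk' : (11 : ℝ) ≤ k := by exact_mod_cast hk
  have hk0 : (0 : ℝ) < k := by linarith
  have h1 : num (k ^ 8) ≤ Real.exp (8 * (k : ℝ) ^ 9) := by
    unfold num
    have h2 : ((k ^ 8 : ℕ) : ℝ) ≤ Real.exp (8 * k) := by
      push_cast
      have h3 : (k : ℝ) ≤ Real.exp k := by linarith [Real.add_one_le_exp (k : ℝ)]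
      calc (k : ℝ) ^ 8 ≤ Real.exp k ^ 8 := by gcongr
        _ = Real.exp (8 * k) := by rw [← Real.exp_nat_mul]; norm_num
    calc ((k ^ 8 : ℕ) : ℝ) ^ (k ^ 8) ≤ (Real.exp (8 * k)) ^ (k ^ 8) := by gcongr
      _ = Real.exp (8 * (k : ℝ) ^ 9) := by
        rw [← Real.exp_nat_mul]; congr 1; push_cast; ring
  calc num (k ^ 8) * Real.exp (-(((k : ℝ) ^ 6) ^ 2 / 144))
      ≤ Real.exp (8 * (k : ℝ) ^ 9) * Real.exp (-(((k : ℝ) ^ 6) ^ 2 / 144)) := by gcongr
    _ = Real.exp (8 * (k : ℝ) ^ 9 - ((k : ℝ) ^ 6) ^ 2 / 144) := by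
        rw [← Real.exp_add]; congr 1
    _ ≤ _ := by
        apply Real.exp_le_exp.2
        have h3 : (1331 : ℝ) ≤ (k : ℝ) ^ 3 := by
          calc (1331 : ℝ) = 11 ^ 3 := by norm_num
            _ ≤ (k : ℝ) ^ 3 := by gcongr
        have h4 : ((k : ℝ) ^ 6) ^ 2 = (k : ℝ) ^ 9 * (k : ℝ) ^ 3 := by ring
        have h5 : (k : ℝ) ≤ (k : ℝ) ^ 9 := by
          calc (k : ℝ) = (k : ℝ) ^ 1 := (pow_one _).symm
            _ ≤ (k : ℝ) ^ 9 := pow_le_pow_right₀ (by linarith) (by norm_num)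
        rw [h4]
        nlinarith [pow_pos hk0 9]

theorem not_LS {p : ℝ} (hp : 1 ≤ p) (hp2 : p < 2) :
    ¬ LogvinenkoSereda (m := 2) p (fun _ => setA) := by
  rintro ⟨C, hC, hLS⟩
  set V := (vol 2).real univ with hV
  have hV0 : 0 ≤ V := measureReal_nonneg
  set c1 : ℝ := C * ((1 / 2) ^ p * (21 / 100000 / 64)) with hc1
  have hc1p : 0 < c1 := by rw [hc1]; positivity
  -- the inequality for every large `k`
  have key : ∀ k : ℕ, 11 ≤ k → c1 ≤ 4 * (k : ℝ) ^ (p - 2) + V * ((k : ℝ) ^ 6 *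
      Real.exp (-(k : ℝ))) := by
    intro k hk
    have hk' : (11 : ℝ) ≤ k := by exact_mod_cast hk
    have hk0 : (0 : ℝ) < k := by linarith
    set N := k ^ 8 with hN
    set s := 64 * k ^ 6 * N ^ N with hs
    have hpar : Par N s ((k : ℝ) ^ 6) := by
      refine ⟨?_, ?_, ?_⟩
      · rw [hN]; positivity
      · calc (2 : ℝ) ≤ 11 ^ 6 := by norm_num
          _ ≤ (k : ℝ) ^ 6 := by gcongr
      · rw [hs]; push_cast; ring
    have herr := error_small hk
    have hexp : Real.exp (-(k : ℝ)) ≤ 1 / 4 := by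
      have h1 : (4 : ℝ) ≤ Real.exp k := by linarith [Real.add_one_le_exp (k : ℝ)]
      rw [Real.exp_neg, ← one_div]
      exact one_div_le_one_div_of_le (by norm_num) h1
    obtain ⟨lam, F, hlam, hF, hlow, hup⟩ := main_estimate hpar hp hp2.le hk0
      (herr.trans hexp)
    have h1 := hLS lam hlam F hF
    have hnum : 0 < num N := by
      unfold num
      have : (0 : ℝ) < N := by exact_mod_cast hpar.hN
      positivity
    have hns : num N / s = 1 / (64 * (k : ℝ) ^ 6) := by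
      rw [hpar.hs]
      have e : num N = (N : ℝ) ^ N := rfl
      rw [e] at hnum ⊢
      field_simp
    have hE1 : (num N * Real.exp (-(((k : ℝ) ^ 6) ^ 2 / 144))) ^ p ≤ Real.exp (-(k : ℝ)) := by
      have hnn : 0 ≤ num N * Real.exp (-(((k : ℝ) ^ 6) ^ 2 / 144)) := by positivity
      calc (num N * Real.exp (-(((k : ℝ) ^ 6) ^ 2 / 144))) ^ p
          ≤ (Real.exp (-(k : ℝ))) ^ p := Real.rpow_le_rpow hnn herr (by linarith)
        _ ≤ (Real.exp (-(k : ℝ))) ^ (1 : ℝ) :=
            Real.rpow_le_rpow_of_exponent_ge (Real.exp_pos _) (by linarith) hp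
        _ = _ := Real.rpow_one _
    have h2 : C * ((1 / 2) ^ p * (num N * (21 / 100000 / s))) ≤
        (k : ℝ) ^ (p - 2) * (num N * (24 / s)) + (k : ℝ) ^ p * (27 / 8 / N) +
          Real.exp (-(k : ℝ)) * V := by
      calc _ ≤ C * ∫ x, ‖F x‖ ^ p ∂(vol 2) := by gcongr
        _ ≤ _ := h1
        _ ≤ _ := hup
        _ ≤ _ := by gcongr
    have e1 : num N * (21 / 100000 / s) = 21 / 100000 * (num N / s) := by ring
    have e2 : num N * (24 / s) = 24 * (num N / s) := by ring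
    rw [e1, e2, hns] at h2
    have hNk : (N : ℝ) = (k : ℝ) ^ 8 := by rw [hN]; push_cast; rfl
    have e3 : (k : ℝ) ^ p = (k : ℝ) ^ (p - 2) * (k : ℝ) ^ 2 := by
      rw [← Real.rpow_natCast (k : ℝ) 2, ← Real.rpow_add hk0]
      norm_num
    rw [hNk, e3] at h2
    set T := (k : ℝ) ^ (p - 2) with hT
    have hT0 : 0 < T := Real.rpow_pos_of_pos hk0 _
    have h3 := mul_le_mul_of_nonneg_right h2 (show (0 : ℝ) ≤ (k : ℝ) ^ 6 by positivity)
    have e4 : C * ((1 / 2) ^ p * (21 / 100000 * (1 / (64 * (k : ℝ) ^ 6)))) * (k : ℝ) ^ 6 = c1 := by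
      rw [hc1]; field_simp
    have e5 : (T * (24 * (1 / (64 * (k : ℝ) ^ 6))) + T * (k : ℝ) ^ 2 * (27 / 8 / (k : ℝ) ^ 8) +
        Real.exp (-(k : ℝ)) * V) * (k : ℝ) ^ 6 = T * (3 / 8 + 27 / 8) +
        V * ((k : ℝ) ^ 6 * Real.exp (-(k : ℝ))) := by
      field_simp
      ring
    rw [e4, e5] at h3
    linarith
  have hlim : Tendsto (fun k : ℕ => 4 * (k : ℝ) ^ (p - 2) + V * ((k : ℝ) ^ 6 *
      Real.exp (-(k : ℝ)))) atTop (𝓝 (4 * 0 + V * 0)) := by
    apply Tendsto.add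
    · apply Tendsto.const_mul
      have h1 := tendsto_rpow_neg_atTop (show 0 < 2 - p by linarith)
      have h2 := h1.comp tendsto_natCast_atTop_atTop
      refine h2.congr ?_
      intro k
      simp only [Function.comp]
      congr 1
      ring
    · apply Tendsto.const_mul
      exact (Real.tendsto_pow_mul_exp_neg_atTop_nhds_zero 6).comp tendsto_natCast_atTop_atTop
  simp only [mul_zero, add_zero] at hlim
  have hev : ∀ᶠ k : ℕ in atTop, c1 ≤ 4 * (k : ℝ) ^ (p - 2) + V * ((k : ℝ) ^ 6 *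
      Real.exp (-(k : ℝ))) := by
    filter_upwards [eventually_ge_atTop 11] with k hk using key k hk
  have := ge_of_tendsto hlim hev
  linarith

end Pool.Agent.NH67.SH
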