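import Pool.Agent.NH67.SH.Beams

/-! # Choice of signs and integral bounds -/

set_option autoImplicit false

open MeasureTheory Metric Set Filter
open scoped Topology ENNReal

namespace Pool.Agent.NH67.SH

instance isFiniteMeasure_vol : IsFiniteMeasure (vol 2) := by unfold vol; infer_instance

theorem cont_integrable {f : Sph 2 → ℝ} (hf : Continuous f) (μ : Measure (Sph 2))
    [IsFiniteMeasure μ] : Integrable f μ :=
  hf.integrable_of_hasCompactSupport (HasCompactSupport.of_compactSpace f)

theorem exists_signs {ι : Type*} (μ : Measure (Sph 2)) [IsFiniteMeasure μ] (D : Finset ι)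
    (e : ι → Sph 2 → ℂ) (he : ∀ d, Continuous (e d)) :
    ∃ ε : ι → ℂ, (∀ d, ‖ε d‖ = 1) ∧
      ∫ x, ‖∑ d ∈ D, ε d * e d x‖ ^ 2 ∂μ ≤ ∑ d ∈ D, ∫ x, ‖e d x‖ ^ 2 ∂μ := by
  classical
  induction D using Finset.induction_on with
  | empty => exact ⟨fun _ => 1, by simp, by simp⟩
  | insert d D hd ih =>
    obtain ⟨ε, hε, hI⟩ := ih
    set F : Sph 2 → ℂ := fun x => ∑ d ∈ D, ε d * e d x with hF
    have hFc : Continuous F := by
      rw [hF]
      exact continuous_finsetSum _ fun d _ => continuous_const.mul (he d)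
    have hpar : (∫ x, ‖F x + e d x‖ ^ 2 ∂μ) + ∫ x, ‖F x - e d x‖ ^ 2 ∂μ =
        2 * (∫ x, ‖F x‖ ^ 2 ∂μ) + 2 * ∫ x, ‖e d x‖ ^ 2 ∂μ := by
      rw [← integral_const_mul, ← integral_const_mul,
        ← integral_add (cont_integrable (by fun_prop) μ) (cont_integrable (by fun_prop) μ),
        ← integral_add (cont_integrable (by fun_prop) μ) (cont_integrable (by fun_prop) μ)]
      apply integral_congr_ae
      apply ae_of_all
      intro x
      have := parallelogram_law_with_norm ℝ (F x) (e d x)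
      simp only
      nlinarith
    have hupd : ∀ σ : ℂ, ∀ x, ∑ d' ∈ D, Function.update ε d σ d' * e d' x = F x := by
      intro σ x
      rw [hF]
      apply Finset.sum_congr rfl
      intro d' hd'
      have : d' ≠ d := fun h => hd (h ▸ hd')
      rw [Function.update_of_ne this]
    have hnorm : ∀ σ : ℂ, ‖σ‖ = 1 → ∀ d', ‖Function.update ε d σ d'‖ = 1 := by
      intro σ hσ d'
      by_cases h : d' = d
      · rw [h, Function.update_self]; exact hσ
      · rw [Function.update_of_ne h]; exact hε d'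
    have hor : (∫ x, ‖F x + e d x‖ ^ 2 ∂μ) ≤ (∫ x, ‖e d x‖ ^ 2 ∂μ) + ∫ x, ‖F x‖ ^ 2 ∂μ ∨
        (∫ x, ‖F x - e d x‖ ^ 2 ∂μ) ≤ (∫ x, ‖e d x‖ ^ 2 ∂μ) + ∫ x, ‖F x‖ ^ 2 ∂μ := by
      by_contra hcon
      push Not at hcon
      linarith [hcon.1, hcon.2]
    rcases hor with h | h
    · refine ⟨Function.update ε d 1, hnorm 1 (by simp), ?_⟩
      simp only [Finset.sum_insert hd, hupd, Function.update_self, one_mul]
      have e1 : ∀ x, e d x + F x = F x + e d x := fun x => add_comm _ _
      simp only [e1]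
      linarith
    · refine ⟨Function.update ε d (-1), hnorm (-1) (by simp), ?_⟩
      simp only [Finset.sum_insert hd, hupd, Function.update_self]
      have e1 : ∀ x, -1 * e d x + F x = F x - e d x := fun x => by ring
      simp only [e1]
      linarith

/-- the elementary inequality `r ^ p ≤ θ ^ (p - 2) r² + θ ^ p` -/
theorem rpow_le_aux {r θ p : ℝ} (hr : 0 ≤ r) (hθ : 0 < θ) (hp : 0 ≤ p) (hp2 : p ≤ 2) :
    r ^ p ≤ θ ^ (p - 2) * r ^ 2 + θ ^ p := by
  have h1 : 0 ≤ θ ^ (p - 2) * r ^ 2 := by positivity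
  have h2 : 0 ≤ θ ^ p := by positivity
  rcases le_or_gt r θ with h | h
  · have := Real.rpow_le_rpow hr h hp
    linarith
  · have hr0 : 0 < r := hθ.trans h
    have e : r ^ p = r ^ (p - 2) * r ^ 2 := by
      rw [← Real.rpow_natCast r 2, ← Real.rpow_add hr0]
      norm_num
    have h3 : r ^ (p - 2) ≤ θ ^ (p - 2) :=
      Real.rpow_le_rpow_of_nonpos hθ h.le (by linarith)
    rw [e]
    have := mul_le_mul_of_nonneg_right h3 (sq_nonneg r)
    linarith

/-- the compressed set -/
def setG (N : ℕ) : Set (Sph 2) :=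
  {x | |(x : Amb 2) 1| ≤ 2 * |(x : Amb 2) 0| ∧ ∃ d : Fin N → Fin N,
    |lin (sa d) (sb d) (x : Amb 2)| ≤ 1 / 64 / (N : ℝ) ^ N * |(x : Amb 2) 0|}

theorem continuous_lin_sph (a b : ℝ) : Continuous fun x : Sph 2 => lin a b (x : Amb 2) :=
  (continuous_lin a b).comp continuous_subtype_val

theorem measurableSet_setG (N : ℕ) : MeasurableSet (setG N) := by
  have : setG N = {x : Sph 2 | |(x : Amb 2) 1| ≤ 2 * |(x : Amb 2) 0|} ∩
      ⋃ d : Fin N → Fin N, {x : Sph 2 | |lin (sa d) (sb d) (x : Amb 2)| ≤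
        1 / 64 / (N : ℝ) ^ N * |(x : Amb 2) 0|} := by
    ext x; simp [setG]
  rw [this]
  apply IsClosed.measurableSet
  apply IsClosed.inter
  · exact isClosed_le (continuous_coord 1).abs (continuous_const.mul (continuous_coord 0).abs)
  · apply isClosed_iUnion_of_finite
    intro d
    exact isClosed_le (continuous_lin_sph _ _).abs (continuous_const.mul (continuous_coord 0).abs)

theorem setG_subset (N : ℕ) : setG N ⊆ setA := fun _ hx => Or.inr hx.1

theorem vol_setG {N : ℕ} (hN : 0 < N) : (vol 2).real (setG N) ≤ 27 / 8 / N := by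
  classical
  have hN' : (0 : ℝ) < N := by exact_mod_cast hN
  set w : ℝ := 1 / 64 / (N : ℝ) ^ N with hw
  have hw0 : 0 < w := by rw [hw]; positivity
  let S : Set (Amb 2) := {y | |y 1| ≤ 2 * |y 0| ∧ ∃ d : Fin N → Fin N,
    |lin (sa d) (sb d) y| ≤ w * |y 0|}
  have hSm : MeasurableSet S := by
    have c : ∀ i : Fin 3, Continuous fun y : Amb 2 => y i := fun i =>
      (EuclideanSpace.proj i : Amb 2 →L[ℝ] ℝ).continuous
    have : S = {y : Amb 2 | |y 1| ≤ 2 * |y 0|} ∩
        ⋃ d : Fin N → Fin N, {y : Amb 2 | |lin (sa d) (sb d) y| ≤ w * |y 0|} := by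
      ext y; simp [S]
    rw [this]
    apply IsClosed.measurableSet
    apply IsClosed.inter
    · exact isClosed_le (c 1).abs (continuous_const.mul (c 0).abs)
    · apply isClosed_iUnion_of_finite
      intro d
      exact isClosed_le (continuous_lin _ _).abs (continuous_const.mul (c 0).abs)
  have hm : Measurable ((setG N).indicator (fun _ => (1 : ℝ≥0∞))) :=
    measurable_const.indicator (measurableSet_setG N)
  have hle : ∀ y ∈ pball, (setG N).indicator (fun _ => (1 : ℝ≥0∞)) (proj y) ≤
      S.indicator (fun _ => (1 : ℝ≥0∞)) y := by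
    intro y hy
    have hy0 : y ≠ 0 := by simpa [pball] using hy.2
    have hn : 0 < ‖y‖ := norm_pos_iff.2 hy0
    have hni : 0 < ‖y‖⁻¹ := inv_pos.2 hn
    by_cases hG : proj y ∈ setG N
    · have hyS : y ∈ S := by
        obtain ⟨h1, d, h2⟩ := hG
        rw [proj_of_ne hy0] at h1 h2
        rw [lin_smul] at h2
        simp only [PiLp.smul_apply, smul_eq_mul, abs_mul, abs_of_pos hni] at h1 h2
        refine ⟨?_, d, ?_⟩
        · have : ‖y‖⁻¹ * |y 1| ≤ ‖y‖⁻¹ * (2 * |y 0|) := by linarith
          exact le_of_mul_le_mul_left this hni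
        · have : ‖y‖⁻¹ * |lin (sa d) (sb d) y| ≤ ‖y‖⁻¹ * (w * |y 0|) := by linarith
          exact le_of_mul_le_mul_left this hni
      rw [indicator_of_mem hG, indicator_of_mem hyS]
    · rw [indicator_of_notMem hG]; exact bot_le
  have hslice : ∀ z : Fin 2 → ℝ, (∀ i, |z i| ≤ 1) →
      ∫⁻ t, S.indicator (fun _ => (1 : ℝ≥0∞)) (pt z t) ≤ ENNReal.ofReal (18 / 64 / N) := by
    intro z hz
    by_cases hz1 : |z 1| ≤ 2 * |z 0|
    · refine le_trans ?_ (compress hN (hz 0) hz1)
      have hms : MeasurableSet {t : ℝ | ∃ d : Fin N → Fin N,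
          |t - (sa d * z 1 + sb d * z 0)| ≤ 1 / 64 / (N : ℝ) ^ N} := by
        have : {t : ℝ | ∃ d : Fin N → Fin N,
            |t - (sa d * z 1 + sb d * z 0)| ≤ 1 / 64 / (N : ℝ) ^ N} =
            ⋃ d : Fin N → Fin N, {t : ℝ | |t - (sa d * z 1 + sb d * z 0)| ≤
              1 / 64 / (N : ℝ) ^ N} := by
          ext t; simp
        rw [this]
        apply MeasurableSet.iUnion
        intro d
        exact (isClosed_le (by fun_prop) continuous_const).measurableSet
      rw [← lintegral_indicator_one hms]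
      apply lintegral_mono
      intro t
      by_cases ht : pt z t ∈ S
      · have : t ∈ {t : ℝ | ∃ d : Fin N → Fin N,
            |t - (sa d * z 1 + sb d * z 0)| ≤ 1 / 64 / (N : ℝ) ^ N} := by
          obtain ⟨-, d, hd⟩ := ht
          refine ⟨d, ?_⟩
          rw [lin_pt, pt_zero] at hd
          have h0 := hz 0
          calc _ ≤ w * |z 0| := hd
            _ ≤ w * 1 := by gcongr
            _ = 1 / 64 / (N : ℝ) ^ N := by rw [mul_one]
        rw [indicator_of_mem this]
        simp only []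
        rw [indicator_of_mem ht]
        simp
      · simp only []
        rw [indicator_of_notMem ht]; exact bot_le
    · have : ∀ t, S.indicator (fun _ => (1 : ℝ≥0∞)) (pt z t) = 0 := by
        intro t
        apply indicator_of_notMem
        rintro ⟨h, -⟩
        exact hz1 h
      simp [this]
  have hmain := lintegral_vol_le hm (measurable_const.indicator hSm) hle hslice
  rw [lintegral_indicator (measurableSet_setG N)] at hmain
  simp only [lintegral_const, MeasurableSet.univ, Measure.restrict_apply, univ_inter, one_mul]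
    at hmain
  have h12 : (12 : ℝ≥0∞) * ENNReal.ofReal (18 / 64 / N) = ENNReal.ofReal (27 / 8 / N) := by
    have : (12 : ℝ≥0∞) = ENNReal.ofReal 12 := by norm_num
    rw [this, ← ENNReal.ofReal_mul (by norm_num)]
    congr 1; ring
  rw [h12] at hmain
  calc (vol 2).real (setG N) ≤ (ENNReal.ofReal (27 / 8 / N)).toReal :=
        ENNReal.toReal_mono ENNReal.ofReal_ne_top hmain
    _ = _ := ENNReal.toReal_ofReal (by positivity)

/-- the core of a tube -/
def core (a b s : ℝ) : Set (Sph 2) :=
  {x | 0 < (x : Amb 2) 0 ∧ 3 * (x : Amb 2) 0 ≤ (x : Amb 2) 1 ∧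
    (x : Amb 2) 1 ≤ 4 * (x : Amb 2) 0 ∧ |lin a b (x : Amb 2)| ≤ (x : Amb 2) 0 / (2 * s)}

theorem measurableSet_core (a b s : ℝ) : MeasurableSet (core a b s) := by
  have h1 : MeasurableSet {x : Sph 2 | 0 < (x : Amb 2) 0} :=
    (isOpen_lt continuous_const (continuous_coord 0)).measurableSet
  have h2 : MeasurableSet {x : Sph 2 | 3 * (x : Amb 2) 0 ≤ (x : Amb 2) 1} :=
    (isClosed_le (continuous_const.mul (continuous_coord 0)) (continuous_coord 1)).measurableSet
  have h3 : MeasurableSet {x : Sph 2 | (x : Amb 2) 1 ≤ 4 * (x : Amb 2) 0} :=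
    (isClosed_le (continuous_coord 1) (continuous_const.mul (continuous_coord 0))).measurableSet
  have h4 : MeasurableSet {x : Sph 2 | |lin a b (x : Amb 2)| ≤ (x : Amb 2) 0 / (2 * s)} :=
    (isClosed_le (continuous_lin_sph _ _).abs
      ((continuous_coord 0).div_const _)).measurableSet
  exact h1.inter (h2.inter (h3.inter h4))

theorem vol_core {a b s : ℝ} (ha : |a| ≤ 1 / 64) (hb : |b| ≤ 1 / 32) (hs : 1 ≤ s) :
    21 / 100000 / s ≤ (vol 2).real (core a b s) := by
  have hs0 : 0 < s := by linarith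
  set R : Set (Fin 2 → ℝ) := Icc ![1 / 10, 33 / 100] ![11 / 100, 40 / 100] with hR
  have hslice : ∀ z ∈ R, ENNReal.ofReal (1 / 10 / s) ≤
      volume {t : ℝ | pt z t ∈ pball ∧ proj (pt z t) ∈ core a b s} := by
    intro z hz
    rw [hR, mem_Icc, Pi.le_def, Pi.le_def] at hz
    have h00 := hz.1 0
    have h01 := hz.1 1
    have h10 := hz.2 0
    have h11 := hz.2 1
    simp only [Matrix.cons_val_zero, Matrix.cons_val_one] at h00 h01 h10 h11
    set c := a * z 1 + b * z 0 with hc
    have hca : |c| ≤ 1 / 50 := by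
      rw [hc]
      refine (abs_add_le _ _).trans ?_
      rw [abs_mul, abs_mul, abs_of_nonneg (show (0 : ℝ) ≤ z 1 by linarith),
        abs_of_nonneg (show (0 : ℝ) ≤ z 0 by linarith)]
      nlinarith [abs_nonneg a, abs_nonneg b]
    have hsub : Icc (c - 1 / 20 / s) (c + 1 / 20 / s) ⊆
        {t : ℝ | pt z t ∈ pball ∧ proj (pt z t) ∈ core a b s} := by
      rintro t ⟨ht1, ht2⟩
      have hs20 : 1 / 20 / s ≤ 1 / 20 := by
        apply div_le_self (by norm_num) hs
      have htc : |t - c| ≤ 1 / 20 / s := abs_le.2 ⟨by linarith, by linarith⟩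
      have hcc := abs_le.1 hca
      have ht : |t| ≤ 1 / 10 := by
        rw [abs_le]; constructor <;> linarith [hcc.1, hcc.2]
      have hne : pt z t ≠ 0 := by
        intro h
        have : pt z t 0 = 0 := by rw [h]; rfl
        rw [pt_zero] at this
        linarith
      have hn : 0 < ‖pt z t‖ := norm_pos_iff.2 hne
      have hni : 0 < ‖pt z t‖⁻¹ := inv_pos.2 hn
      refine ⟨⟨?_, hne⟩, ?_⟩
      · have h2 : ‖pt z t‖ ^ 2 < 1 := by
          rw [norm3, pt_zero, pt_one, pt_two]
          have : t ^ 2 ≤ 1 / 100 := by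
            rw [← sq_abs]; nlinarith [abs_nonneg t]
          nlinarith
        have : ‖pt z t‖ < 1 := by nlinarith
        simpa using this
      · have hp : ∀ i, ((proj (pt z t) : Sph 2) : Amb 2) i = ‖pt z t‖⁻¹ * pt z t i := by
          intro i; rw [proj_of_ne hne]; simp
        refine ⟨?_, ?_, ?_, ?_⟩
        · rw [hp, pt_zero]; apply mul_pos hni; linarith
        · rw [hp, hp, pt_zero, pt_one]
          have : 3 * z 0 ≤ z 1 := by linarith
          nlinarith
        · rw [hp, hp, pt_zero, pt_one]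
          have : z 1 ≤ 4 * z 0 := by linarith
          nlinarith
        · rw [hp, pt_zero, proj_of_ne hne, lin_smul, abs_mul, abs_of_pos hni, lin_pt, mul_div_assoc]
          apply mul_le_mul_of_nonneg_left _ hni.le
          refine htc.trans ?_
          rw [div_div, div_le_div_iff₀ (by positivity) (by positivity)]
          nlinarith
    calc ENNReal.ofReal (1 / 10 / s) = volume (Icc (c - 1 / 20 / s) (c + 1 / 20 / s)) := by
          rw [Real.volume_Icc]; congr 1; ring
      _ ≤ _ := measure_mono hsub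
  have hmain := vol_ge (measurableSet_core a b s) measurableSet_Icc hslice
  have hvR : volume R = ENNReal.ofReal (7 / 10000) := by
    rw [hR, Real.volume_Icc_pi]
    simp only [Fin.prod_univ_two, Matrix.cons_val_zero, Matrix.cons_val_one]
    rw [← ENNReal.ofReal_mul (by norm_num)]
    norm_num
  rw [hvR] at hmain
  have h3 : (3 : ℝ≥0∞) * (ENNReal.ofReal (7 / 10000) * ENNReal.ofReal (1 / 10 / s)) =
      ENNReal.ofReal (21 / 100000 / s) := by
    have : (3 : ℝ≥0∞) = ENNReal.ofReal 3 := by norm_num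
    rw [this, ← ENNReal.ofReal_mul (by norm_num), ← ENNReal.ofReal_mul (by norm_num)]
    congr 1; ring
  rw [h3] at hmain
  rw [measureReal_def]
  exact (ENNReal.ofReal_le_iff_le_toReal (measure_ne_top _ _)).1 hmain

end Pool.Agent.NH67.SH
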